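import Pool.Agent.V7H37.LI.Period

/-! # Local periods along paths in the code of a counterexample -/

set_option autoImplicit false

open Filter Topology Matrix Polynomial

namespace Pool.Agent.V7H37.LI

open H715R2 Pool.Agent.N759.NV Pool.Agent.N759.WP Pool.Agent.N759.LC Pool.Agent.V7H37.RT

variable {α β ρ σ C : ℝ} {V : ℤ → ℤ → Matrix (Fin 3) (Fin 3) ℤ}

lemma zpow_step {r B : ℝ} (hr : 1 < r) {L : ℕ} (hB : r ^ L ≤ B) {x y : ℤ} (h : |x - y| ≤ L) :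
    r ^ x ≤ B * r ^ y ∧ r ^ y ≤ B * r ^ x := by
  have hr0 : 0 < r := by linarith
  have h' := abs_le.1 h
  have key : ∀ a b : ℤ, a - b ≤ L → r ^ a ≤ B * r ^ b := by
    intro a b hab
    have e : r ^ a = r ^ (a - b) * r ^ b := by
      rw [← zpow_add₀ hr0.ne', sub_add_cancel]
    rw [e]
    refine mul_le_mul_of_nonneg_right ?_ (zpow_pos hr0 _).le
    refine le_trans ?_ hB
    rw [← _root_.zpow_natCast]
    exact zpow_le_zpow_right₀ hr.le hab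
  exact ⟨key x y (by omega), key y x (by omega)⟩

lemma zpow_far {r M : ℝ} (hr : 1 < r) {M₁ : ℕ} (hM : M < r ^ M₁) {x y : ℤ}
    (h : r ^ x ≤ M * r ^ y) : x - y < M₁ := by
  have hr0 : 0 < r := by linarith
  have hy : 0 < r ^ y := zpow_pos hr0 y
  have e : r ^ x = r ^ (x - y) * r ^ y := by
    rw [← zpow_add₀ hr0.ne', sub_add_cancel]
  rw [e] at h
  have h1 : r ^ (x - y) ≤ M := le_of_mul_le_mul_right h hy
  have h2 : r ^ (x - y) < r ^ ((M₁ : ℕ) : ℤ) := by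
    rw [_root_.zpow_natCast]
    exact h1.trans_lt hM
  exact (zpow_lt_zpow_iff_right₀ hr).1 h2

/-- **Local periods along paths.** -/
theorem paths {ν : ℝ} (hν0 : 0 < ν)
    (hν : ∀ q p r : ℤ, q ≠ 0 → ν ≤ |(q : ℝ) * (α * q - p) * (β * q - r)|)
    (hρ : 1 < ρ) (hσ : 1 < σ) (hV : Good α β ρ σ C V) :
    ∃ κ : ℕ, ∀ L : ℕ, ∃ M : ℕ, ∀ (N : ℕ) (u v : ℕ → ℤ),
      (∀ k ≤ N, (M : ℤ) ≤ u k ∧ (M : ℤ) ≤ v k) →
      (∀ k < N, |u (k + 1) - u k| ≤ L ∧ |v (k + 1) - v k| ≤ L) →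
      ((M : ℤ) < |u N - u 0| ∨ (M : ℤ) < |v N - v 0|) →
      ∃ k ≤ N, ∀ s t : ℤ, |s| ≤ L → |t| ≤ L → (s ≠ 0 ∨ t ≠ 0) →
        ∃ x y : ℤ, |x| ≤ (κ * L : ℕ) ∧ |y| ≤ (κ * L : ℕ) ∧
          code V (u k + x) (v k + y) ≠ code V (u k + x + s) (v k + y + t) := by
  obtain ⟨e, he⟩ := islands hν0 hν
  have hρ0 : 0 < ρ := by linarith
  have hσ0 : 0 < σ := by linarith
  have hC : 0 ≤ C := by
    have h1 := ((hV 0 0 le_rfl le_rfl).2 0).2.1
    have h2 : (0 : ℝ) ≤ ρ ^ (0 : ℤ) * |α * V 0 0 0 0 - V 0 0 1 0| := by positivity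
    exact h2.trans h1
  set R' : ℝ := (1 : ℝ)⁻¹ * ((Nat.factorial 3 : ℕ) * (max C 1) ^ 3) with hR'
  have hR'0 : 0 ≤ R' := by positivity
  have hCR : 0 ≤ C * R' := mul_nonneg hC hR'0
  have hρσ : 1 ≤ ρ * σ := one_le_mul_of_one_le_of_one_le hρ.le hσ.le
  set b : ℝ := (2 + 3 * (C * R')) * (ρ * σ) with hb
  have hb1 : ρ * σ ≤ b := by
    rw [hb]
    exact le_mul_of_one_le_left (by positivity) (by linarith)
  have hb2 : 2 + 3 * (C * R') ≤ b := by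
    rw [hb]
    exact le_mul_of_one_le_right (by linarith) hρσ
  have hb3 : 2 ≤ b := by linarith
  have hb4 : 1 ≤ b := by linarith
  have hb0 : 0 < b := by linarith
  set μ : ℝ := min ρ σ with hμdef
  have hμ : 1 < μ := lt_min hρ hσ
  have hμρ : μ ≤ ρ := min_le_left _ _
  have hμσ : μ ≤ σ := min_le_right _ _
  obtain ⟨κ, hκ⟩ := pow_unbounded_of_one_lt (b ^ (2 * (e + 1))) hμ
  have hbκ : b < μ ^ κ := by
    refine lt_of_le_of_lt ?_ hκ
    calc b = b ^ 1 := (pow_one b).symm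
      _ ≤ b ^ (2 * (e + 1)) := pow_le_pow_right₀ hb4 (by omega)
  have hκ' : 3 * (C * R') < μ ^ κ := by linarith
  refine ⟨κ, fun L => ?_⟩
  rcases Nat.eq_zero_or_pos L with rfl | hL
  · refine ⟨0, fun N u v _ _ _ => ⟨0, Nat.zero_le _, fun s t hs ht hst => ?_⟩⟩
    exfalso
    have hs' : |s| ≤ 0 := by exact_mod_cast hs
    have ht' : |t| ≤ 0 := by exact_mod_cast ht
    rcases hst with h | h
    · exact h (abs_eq_zero.1 (le_antisymm hs' (abs_nonneg _)))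
    · exact h (abs_eq_zero.1 (le_antisymm ht' (abs_nonneg _)))
  set B : ℝ := b ^ (L + 1) with hB
  have hB2 : 2 ≤ B := by
    calc (2 : ℝ) ≤ b := hb3
      _ = b ^ 1 := (pow_one b).symm
      _ ≤ b ^ (L + 1) := pow_le_pow_right₀ hb4 (by omega)
  have hBρ : ρ ^ L ≤ B := by
    have h1 : ρ ≤ b := (le_mul_of_one_le_right hρ0.le hσ.le).trans hb1
    calc ρ ^ L ≤ b ^ L := pow_le_pow_left₀ hρ0.le h1 L
      _ ≤ b ^ (L + 1) := pow_le_pow_right₀ hb4 (by omega)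
  have hBσ : σ ^ L ≤ B := by
    have h1 : σ ≤ b := (le_mul_of_one_le_left hσ0.le hρ.le).trans hb1
    calc σ ^ L ≤ b ^ L := pow_le_pow_left₀ hσ0.le h1 L
      _ ≤ b ^ (L + 1) := pow_le_pow_right₀ hb4 (by omega)
  have hT : (3 : ℕ) * ((ρ * σ) ^ L * C * R') ≤ B := by
    have h1 : (ρ * σ) ^ L ≤ b ^ L := pow_le_pow_left₀ (by positivity) hb1 L
    have h2 : 3 * (C * R') ≤ b := by linarith
    calc ((3 : ℕ) : ℝ) * ((ρ * σ) ^ L * C * R') = (ρ * σ) ^ L * (3 * (C * R')) := by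
          push_cast
          ring
      _ ≤ b ^ L * b := mul_le_mul h1 h2 (by positivity) (by positivity)
      _ = B := by rw [hB, pow_succ]
  have hprec : B / μ ^ (κ * L) ≤ 1 / B ^ e := by
    have hB0 : 0 < B := by linarith
    rw [div_le_div_iff₀ (by positivity) (by positivity), one_mul]
    calc B * B ^ e = b ^ ((L + 1) * (e + 1)) := by
          rw [← pow_succ', hB, ← pow_mul]
      _ ≤ b ^ (2 * (e + 1) * L) := by
          refine pow_le_pow_right₀ hb4 ?_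
          calc (L + 1) * (e + 1) ≤ (2 * L) * (e + 1) := Nat.mul_le_mul_right _ (by omega)
            _ = 2 * (e + 1) * L := by ring
      _ = (b ^ (2 * (e + 1))) ^ L := pow_mul _ _ _
      _ ≤ (μ ^ κ) ^ L := pow_le_pow_left₀ (by positivity) hκ.le L
      _ = μ ^ (κ * L) := (pow_mul _ _ _).symm
  obtain ⟨M₀, -, hM₀⟩ := he B hB2
  obtain ⟨M₁, hM₁⟩ := pow_unbounded_of_one_lt M₀ hρ
  obtain ⟨M₂, hM₂⟩ := pow_unbounded_of_one_lt M₀ hσ
  refine ⟨M₁ + M₂ + κ * L + L, fun N u v hpos hstep hfar => ?_⟩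
  by_contra hcon
  push Not at hcon
  have hκL : (0 : ℤ) ≤ (κ * L : ℕ) := Int.natCast_nonneg _
  have hpos' : ∀ k ≤ N, (M₁ : ℤ) + M₂ + (κ * L : ℕ) + L ≤ u k ∧
      (M₁ : ℤ) + M₂ + (κ * L : ℕ) + L ≤ v k := by
    intro k hk
    have := hpos k hk
    push_cast at this ⊢
    exact this
  have h := hM₀ N (fun k => ρ ^ u k) (fun k => σ ^ v k) (fun k hk => ?_) (fun k hk => ?_)
    (fun k hk => ?_)
  · obtain ⟨h1, h2, h3, h4⟩ := h
    have g1 := zpow_far hρ hM₁ h1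
    have g2 := zpow_far hρ hM₁ h2
    have g3 := zpow_far hσ hM₂ h3
    have g4 := zpow_far hσ hM₂ h4
    have hfar' : (M₁ : ℤ) + M₂ + (κ * L : ℕ) + L < |u N - u 0| ∨
        (M₁ : ℤ) + M₂ + (κ * L : ℕ) + L < |v N - v 0| := by
      push_cast at hfar ⊢
      exact hfar
    rcases hfar' with hf | hf
    · have : |u N - u 0| < M₁ := abs_lt.2 ⟨by omega, by omega⟩
      omega
    · have : |v N - v 0| < M₂ := abs_lt.2 ⟨by omega, by omega⟩
      omega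
  · obtain ⟨h1, h2⟩ := hpos' k hk
    constructor
    · refine hM₁.le.trans ?_
      rw [← _root_.zpow_natCast]
      exact zpow_le_zpow_right₀ hρ.le (by omega)
    · refine hM₂.le.trans ?_
      rw [← _root_.zpow_natCast]
      exact zpow_le_zpow_right₀ hσ.le (by omega)
  · obtain ⟨h1, h2⟩ := hstep k hk
    obtain ⟨a1, a2⟩ := zpow_step hρ hBρ h1
    obtain ⟨a3, a4⟩ := zpow_step hσ hBσ h2
    exact ⟨a1, a2, a3, a4⟩
  · obtain ⟨h1, h2⟩ := hpos' k hk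
    obtain ⟨s, t, hs, ht, hst, hper⟩ := hcon k hk
    obtain ⟨γ, hγ, hND⟩ := near_of_period hμ hμρ hμσ hC hV (by omega) (by omega) hs ht hst hκ'
      hper hT
    exact ⟨γ, hγ, hND.mono le_rfl hprec⟩

end Pool.Agent.V7H37.LI
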