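import Pool.Agent.V7H37.RT.Core

/-! # Near-diagonal integral matrices along chains of positions -/

set_option autoImplicit false

open Filter Topology Matrix Polynomial

namespace Pool.Agent.V7H37.LI

open H715R2 Pool.Agent.N759.NV Pool.Agent.N759.WP Pool.Agent.V7H37.RT

variable {d : ℕ}

/-- change of the position -/
lemma Xm_ratio {g : Matrix (Fin d) (Fin d) ℝ} (hg : g.det ≠ 0) {c c' : Fin d → ℝ}
    (hc : ∀ i, 0 < c i) (hc' : ∀ i, 0 < c' i) (γ : Matrix (Fin d) (Fin d) ℤ) (i j : Fin d) :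
    Xm (diagonal c' * g) γ i j * (c i * c' j) = Xm (diagonal c * g) γ i j * (c' i * c j) := by
  rw [Xm_diag hg hc, Xm_diag hg hc']
  have h1 := (hc i).ne'
  have h2 := (hc j).ne'
  have h3 := (hc' i).ne'
  have h4 := (hc' j).ne'
  field_simp

/-- **Chains.** -/
theorem chain_bound (hd : 1 ≤ d) {g : Matrix (Fin d) (Fin d) ℝ} (hg : g.det ≠ 0) {R R' : ℝ}
    (c : ℕ → Fin d → ℝ) (hc : ∀ k i, 0 < c k i) (hc1 : ∀ k, ∏ i, c k i = 1) (n : ℕ)
    (hR : ∀ k ≤ n, ∃ V : Matrix (Fin d) (Fin d) ℤ,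
      IsUnit V.det ∧ MB (diagonal (c k) * g * zR V) R ∧ MB (diagonal (c k) * g * zR V)⁻¹ R')
    {B η : ℝ} (hB : 1 ≤ B) (hη : 0 ≤ η) (hη1 : η ≤ 1)
    (hstep : ∀ k < n, ∀ i j, c (k + 1) i * c k j ≤ B * (c k i * c (k + 1) j))
    (hs1 : d * (d * (R' * (d * (2 * (B * (B * η))))) * R) < 1)
    (hs2 : d.factorial * (d * (d * (d * B) ^ (2 * d)) ^ d *
      (d * ((2 * d) * (d * B) ^ (2 * d) * η))) ≤ 1 / 2)
    (hs3 : 8 * (d * d) * (2 * B) ^ (d * d) * η ≤ 1)
    (γ : ℕ → Matrix (Fin d) (Fin d) ℤ) (hγ : ∀ k ≤ n, Irr (γ k))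
    (hND : ∀ k ≤ n, ND B η (Xm (diagonal (c k) * g) (γ k))) :
    ∀ k ≤ n, ∀ l ≤ n, MB (Xm (diagonal (c k) * g) (γ l)) (2 * (d * B)) := by
  have hd' : (1 : ℝ) ≤ d := by exact_mod_cast hd
  have hdet : ∀ k, (diagonal (c k) * g).det ≠ 0 := by
    intro k
    rw [det_mul, det_diagonal, hc1, one_mul]
    exact hg
  have hηB : η ≤ B := hη1.trans hB
  -- neighbours commute
  have hadj : ∀ k, k < n → γ k * γ (k + 1) = γ (k + 1) * γ k := by
    intro k hk
    obtain ⟨V, hV, hV1, hV2⟩ := hR (k + 1) hk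
    refine commute_of_near (hdet (k + 1)) hV hV1 hV2 (B := B) (η := B * η) (by positivity)
      (by nlinarith) hs1 ?_ ?_
    · intro i j
      have e := Xm_ratio hg (hc k) (hc (k + 1)) (γ k) i j
      have h1 := hND k hk.le i j
      have hpos : 0 < c k i * c (k + 1) j := mul_pos (hc _ _) (hc _ _)
      have hpos' : 0 < c (k + 1) i * c k j := mul_pos (hc _ _) (hc _ _)
      have e2 : |Xm (diagonal (c (k + 1)) * g) (γ k) i j| * (c k i * c (k + 1) j) =
          |Xm (diagonal (c k) * g) (γ k) i j| * (c (k + 1) i * c k j) := by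
        calc |Xm (diagonal (c (k + 1)) * g) (γ k) i j| * (c k i * c (k + 1) j)
            = |Xm (diagonal (c (k + 1)) * g) (γ k) i j| * |c k i * c (k + 1) j| := by
              rw [abs_of_pos hpos]
          _ = |Xm (diagonal (c (k + 1)) * g) (γ k) i j * (c k i * c (k + 1) j)| :=
              (abs_mul _ _).symm
          _ = |Xm (diagonal (c k) * g) (γ k) i j * (c (k + 1) i * c k j)| := by rw [e]
          _ = |Xm (diagonal (c k) * g) (γ k) i j| * |c (k + 1) i * c k j| := abs_mul _ _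
          _ = _ := by rw [abs_of_pos hpos']
      split_ifs with hij
      · subst hij
        rw [if_pos rfl] at h1
        rw [mul_comm (c (k + 1) i) (c k i)] at e2
        have := mul_right_cancel₀ hpos.ne' e2
        rwa [this]
      · rw [if_neg hij] at h1
        have h3 := hstep k hk i j
        refine le_of_mul_le_mul_right ?_ hpos
        rw [e2]
        calc |Xm (diagonal (c k) * g) (γ k) i j| * (c (k + 1) i * c k j)
            ≤ η * (B * (c k i * c (k + 1) j)) := mul_le_mul h1 h3 hpos'.le hη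
          _ = B * η * (c k i * c (k + 1) j) := by ring
    · exact (hND (k + 1) hk).mono le_rfl (by nlinarith)
  have hcomm0 : ∀ k, k ≤ n → γ k * γ 0 = γ 0 * γ k := by
    intro k
    induction k with
    | zero => intro _; rfl
    | succ k ih =>
      intro hk
      refine mQ_inj ?_
      rw [mQ_mul, mQ_mul]
      refine comm_trans (mQ (γ k)) (hγ k (by omega)) _ _ ?_ ?_
      · rw [← mQ_mul, ← mQ_mul, hadj k (by omega)]
      · rw [← mQ_mul, ← mQ_mul, ih (by omega)]
  have hcomm : ∀ k ≤ n, ∀ l ≤ n, γ k * γ l = γ l * γ k := by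
    intro k hk l hl
    refine mQ_inj ?_
    rw [mQ_mul, mQ_mul]
    refine comm_trans (mQ (γ 0)) (hγ 0 (Nat.zero_le _)) _ _ ?_ ?_
    · rw [← mQ_mul, ← mQ_mul, hcomm0 k hk]
    · rw [← mQ_mul, ← mQ_mul, hcomm0 l hl]
  -- the bound
  have hg0 : (0 : ℝ) < 1 / (2 * (2 * B) ^ (d * d)) := by positivity
  intro k hk l hl
  refine commuting_bound hd hη hg0 (hND k hk) (fun i j hij => ?_) ?_ ?_ ?_ (by positivity)
  · have h1 := gap hd hB hη hηB (hND k hk) (disc_bound (hdet k) (hγ k hk)) hs2 i j hij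
    rw [div_le_iff₀ (by positivity)]
    nlinarith
  · rw [le_div_iff₀ (by positivity)]
    nlinarith
  · rw [← Xm_mul (hdet k), ← Xm_mul (hdet k), hcomm k hk l hl]
  · rw [← Xm_pow (hdet k), trace_Xm (hdet k), ← trace_Xm (h := diagonal (c l) * g) (hdet l),
      Xm_pow (hdet l)]
    have h2 := (hND l hl).mb hηB
    rw [pow_two (Xm _ _)]
    refine (trace_bound (h2.mul h2)).trans (le_of_eq ?_)
    ring

/-- three numbers -/
lemma gap3 {b : Fin 3 → ℝ} (hb : ∀ i, 0 < b i) {T : ℝ} (hT : 1 < T) {p q : Fin 3}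
    (hpq : T ^ 2 * b q ≤ b p) :
    ∃ i, (∀ j, j ≠ i → T * b j ≤ b i) ∨ (∀ j, j ≠ i → T * b i ≤ b j) := by
  obtain ⟨i, hi⟩ := Finite.exists_max b
  obtain ⟨j, hj⟩ := Finite.exists_min b
  have h1 : T ^ 2 * b j ≤ b i :=
    (mul_le_mul_of_nonneg_left (hj q) (by positivity)).trans (hpq.trans (hi p))
  by_cases h : ∀ k, k ≠ i → T * b k ≤ b i
  · exact ⟨i, Or.inl h⟩
  push Not at h
  obtain ⟨k, hki, hk⟩ := h
  have hbj := hb j
  have hT2 : T * b j ≤ T ^ 2 * b j := by
    refine mul_le_mul_of_nonneg_right ?_ hbj.le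
    nlinarith
  have hkj : k ≠ j := by
    rintro rfl
    linarith
  have hij : i ≠ j := by
    rintro rfl
    nlinarith
  have h2 : T * b j ≤ b k := by
    have h3 : T * (T * b j) < T * b k := by
      calc T * (T * b j) = T ^ 2 * b j := by ring
        _ ≤ b i := h1
        _ < T * b k := hk
    exact (lt_of_mul_lt_mul_left h3 (by linarith)).le
  refine ⟨j, Or.inr fun l hl => ?_⟩
  have hl' : l = i ∨ l = k := by omega
  rcases hl' with rfl | rfl
  · linarith
  · exact h2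

end Pool.Agent.V7H37.LI
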