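import Pool.Agent.V7H37.LI.Compact
import Pool.Agent.V7H37.LI.Chain
import Pool.Agent.V7H37.HC.Group

/-! # Returns, and local periods of the two-dimensional code -/

set_option autoImplicit false

open Filter Topology Matrix Polynomial

namespace Pool.Agent.V7H37.LI

open H715R2 Pool.Agent.N759.NV Pool.Agent.N759.WP Pool.Agent.N759.LC Pool.Agent.V7H37.RT

variable {d : ℕ}

/-- no near-diagonal integral matrices: no returns -/
theorem no_return (hd : 1 ≤ d) {h : Matrix (Fin d) (Fin d) ℝ} (hh : h.det ≠ 0) {B ε : ℝ}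
    (hB : 2 ≤ B) (hε2 : ε ≤ 1 / 2)
    (hns : ∀ γ : Matrix (Fin d) (Fin d) ℤ, (∀ c : ℤ, γ ≠ c • (1 : Matrix (Fin d) (Fin d) ℤ)) →
      ¬ ND B (ε * B) (Xm h γ)) (b : Fin d → ℝ) (hb : ∀ i, 0 < b i) (hb2 : ∃ i, 2 ≤ b i)
    (hbB : ∀ i, 2 ≤ B * b i) (γ : Matrix (Fin d) (Fin d) ℤ) (hγ : |γ.det| = 1) :
    ∃ i j, ε < |(Matrix.diagonal b * Xm h γ - 1) i j| := by
  by_contra hcon
  push Not at hcon
  have hB0 : 0 < B := by linarith
  have hε0 : 0 ≤ ε := (abs_nonneg _).trans (hcon ⟨0, hd⟩ ⟨0, hd⟩)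
  have hent : ∀ i j, |b i * Xm h γ i j - (if i = j then 1 else 0)| ≤ ε := by
    intro i j
    have h1 := hcon i j
    rw [Matrix.sub_apply, Matrix.diagonal_mul, Matrix.one_apply] at h1
    exact h1
  have hbinv : ∀ i, (b i)⁻¹ ≤ B / 2 := by
    intro i
    rw [inv_le_comm₀ (hb i) (by positivity), inv_div, div_le_iff₀ hB0]
    have := hbB i
    linarith
  refine hns γ ?_ fun i j => ?_
  · rintro c rfl
    obtain ⟨i, hi⟩ := hb2
    have h1 : |c| = 1 := by
      have h2 : (c • (1 : Matrix (Fin d) (Fin d) ℤ)).det = c ^ d := by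
        rw [Matrix.det_smul, Matrix.det_one, mul_one, Fintype.card_fin]
      rw [h2, abs_pow] at hγ
      exact (pow_eq_one_iff_of_nonneg (abs_nonneg c) (by omega)).1 hγ
    have hXc : Xm h (c • (1 : Matrix (Fin d) (Fin d) ℤ)) i i = c := by
      have hu : IsUnit h.det := isUnit_iff_ne_zero.2 hh
      have e : zR (c • (1 : Matrix (Fin d) (Fin d) ℤ)) =
          (c : ℝ) • (1 : Matrix (Fin d) (Fin d) ℝ) := by
        ext k l
        unfold zR
        rw [Matrix.map_apply, Matrix.smul_apply, Matrix.smul_apply, Matrix.one_apply,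
          Matrix.one_apply]
        split_ifs <;> simp
      unfold Xm
      rw [e, Matrix.mul_smul, Matrix.mul_one, Matrix.smul_mul, Matrix.mul_nonsing_inv _ hu,
        Matrix.smul_apply, Matrix.one_apply_eq, smul_eq_mul, mul_one]
    have h2 := (hent i i).trans hε2
    rw [hXc, if_pos rfl] at h2
    have h3 := abs_le.1 h2
    rcases eq_or_eq_neg_of_abs_eq h1 with h4 | h4
    · rw [h4] at h3
      push_cast at h3
      linarith [h3.2]
    · rw [h4] at h3
      push_cast at h3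
      linarith [h3.1]
  · have h1 := hent i j
    have h2 : Xm h γ i j = (b i)⁻¹ * (b i * Xm h γ i j) := by
      rw [← mul_assoc, inv_mul_cancel₀ (hb i).ne', one_mul]
    rw [h2, abs_mul, abs_of_pos (inv_pos.2 (hb i))]
    split_ifs with hij
    · rw [if_pos hij] at h1
      have h3 : |b i * Xm h γ i j| ≤ 2 := by
        have h4 := abs_le.1 (h1.trans hε2)
        rw [abs_le]
        constructor <;> linarith [h4.1, h4.2]
      calc (b i)⁻¹ * |b i * Xm h γ i j| ≤ B / 2 * 2 :=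
            mul_le_mul (hbinv i) h3 (abs_nonneg _) (by positivity)
        _ = B := by ring
    · rw [if_neg hij, sub_zero] at h1
      calc (b i)⁻¹ * |b i * Xm h γ i j| ≤ B / 2 * ε :=
            mul_le_mul (hbinv i) h1 (abs_nonneg _) (by positivity)
        _ ≤ ε * B := by nlinarith

/-- good bases at the points of a lattice of positions -/
def Good (α β ρ σ C : ℝ) (V : ℤ → ℤ → Matrix (Fin 3) (Fin 3) ℤ) : Prop :=
  ∀ m n : ℤ, 0 ≤ m → 0 ≤ n → |(V m n).det| = 1 ∧ ∀ k, |(V m n 0 k : ℝ)| ≤ C * (ρ ^ m * σ ^ n) ∧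
    ρ ^ m * |α * V m n 0 k - V m n 1 k| ≤ C ∧ σ ^ n * |β * V m n 0 k - V m n 2 k| ≤ C

/-- the code -/
noncomputable def code (V : ℤ → ℤ → Matrix (Fin 3) (Fin 3) ℤ) (m n : ℤ) :
    Matrix (Fin 3) (Fin 3) ℤ × Matrix (Fin 3) (Fin 3) ℤ :=
  ((V m n)⁻¹ * V (m + 1) n, (V m n)⁻¹ * V m (n + 1))

variable {α β ρ σ C : ℝ} {V : ℤ → ℤ → Matrix (Fin 3) (Fin 3) ℤ}

lemma Good.unit (hV : Good α β ρ σ C V) {m n : ℤ} (hm : 0 ≤ m) (hn : 0 ≤ n) :
    IsUnit (V m n).det := Int.isUnit_iff_abs_eq.2 (hV m n hm hn).1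

lemma Good.mb (hρ : 0 < ρ) (hσ : 0 < σ) (hV : Good α β ρ σ C V) {m n : ℤ} (hm : 0 ≤ m)
    (hn : 0 ≤ n) : MB (hp α β (ρ ^ m) (σ ^ n) * zR (V m n)) C := by
  intro i k
  obtain ⟨h1, h2, h3⟩ := (hV m n hm hn).2 k
  have hρm : 0 < ρ ^ m := zpow_pos hρ m
  have hσn : 0 < σ ^ n := zpow_pos hσ n
  show |(diagonal (av (ρ ^ m) (σ ^ n)) * LLm α β * zR (V m n)) i k| ≤ C
  rw [← sc_eq]
  fin_cases i
  · show |(V m n 0 k : ℝ) / (ρ ^ m * σ ^ n)| ≤ C
    rw [abs_div, abs_of_pos (mul_pos hρm hσn), div_le_iff₀ (mul_pos hρm hσn)]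
    exact h1
  · show |ρ ^ m * (α * V m n 0 k - V m n 1 k)| ≤ C
    rw [abs_mul, abs_of_pos hρm]
    exact h2
  · show |σ ^ n * (β * V m n 0 k - V m n 2 k)| ≤ C
    rw [abs_mul, abs_of_pos hσn]
    exact h3

/-- a local period of the code gives an integral matrix -/
lemma period_matrix (hV : Good α β ρ σ C V) {m n s t K : ℤ} (hK : 0 ≤ K)
    (hm : K ≤ m) (hn : K ≤ n) (hm' : K ≤ m + s) (hn' : K ≤ n + t)
    (hper : ∀ x y : ℤ, |x| ≤ K → |y| ≤ K →
      code V (m + x) (n + y) = code V (m + x + s) (n + y + t)) :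
    ∀ x y : ℤ, |x| ≤ K → |y| ≤ K →
      V (m + x + s) (n + y + t) = V (m + s) (n + t) * (V m n)⁻¹ * V (m + x) (n + y) := by
  intro x y hx hy
  have key := Pool.Agent.V7H37.HC.box_const (r := 2) (X := Matrix (Fin 3) (Fin 3) ℤ)
    (f := fun z : Fin 2 → ℤ => V (m + z 0 + s) (n + z 1 + t) * (V (m + z 0) (n + z 1))⁻¹)
    (z := fun _ => 0) (R := fun _ => K) (fun z i hz hz' => by
      have hz0 : |z 0| ≤ K := by simpa using hz 0
      have hz1 : |z 1| ≤ K := by simpa using hz 1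
      have a0 := abs_le.1 hz0
      have a1 := abs_le.1 hz1
      have hu1 : IsUnit (V (m + z 0) (n + z 1)).det := hV.unit (by omega) (by omega)
      have hu2 : IsUnit (V (m + z 0 + s) (n + z 1 + t)).det := hV.unit (by omega) (by omega)
      have hc := hper (z 0) (z 1) hz0 hz1
      fin_cases i
      · have b0 : |z 0 + 1| ≤ K := by
          have := hz' 0
          simpa using this
        have b0' := abs_le.1 b0
        have hu3 : IsUnit (V (m + (z 0 + 1)) (n + z 1)).det := hV.unit (by omega) (by omega)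
        have e0 : (z + Pi.single (⟨0, by norm_num⟩ : Fin 2) 1 : Fin 2 → ℤ) 0 = z 0 + 1 := by simp
        have e1 : (z + Pi.single (⟨0, by norm_num⟩ : Fin 2) 1 : Fin 2 → ℤ) 1 = z 1 := by simp
        rw [e0, e1]
        have h1 : (V (m + z 0) (n + z 1))⁻¹ * V (m + z 0 + 1) (n + z 1) =
            (V (m + z 0 + s) (n + z 1 + t))⁻¹ * V (m + z 0 + s + 1) (n + z 1 + t) :=
          congrArg Prod.fst hc
        have h2 : V (m + z 0 + s + 1) (n + z 1 + t) = V (m + z 0 + s) (n + z 1 + t) *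
            ((V (m + z 0) (n + z 1))⁻¹ * V (m + z 0 + 1) (n + z 1)) := by
          rw [h1, ← Matrix.mul_assoc, Matrix.mul_nonsing_inv _ hu2, Matrix.one_mul]
        have e2 : m + (z 0 + 1) + s = m + z 0 + s + 1 := by ring
        have e3 : m + (z 0 + 1) = m + z 0 + 1 := by ring
        rw [e3] at hu3
        rw [e2, e3, h2]
        simp only [Matrix.mul_assoc]
        rw [Matrix.mul_nonsing_inv _ hu3, Matrix.mul_one]
      · have b0 : |z 1 + 1| ≤ K := by
          have := hz' 1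
          simpa using this
        have b0' := abs_le.1 b0
        have hu3 : IsUnit (V (m + z 0) (n + (z 1 + 1))).det := hV.unit (by omega) (by omega)
        have e0 : (z + Pi.single (⟨1, by norm_num⟩ : Fin 2) 1 : Fin 2 → ℤ) 0 = z 0 := by simp
        have e1 : (z + Pi.single (⟨1, by norm_num⟩ : Fin 2) 1 : Fin 2 → ℤ) 1 = z 1 + 1 := by simp
        rw [e0, e1]
        have h1 : (V (m + z 0) (n + z 1))⁻¹ * V (m + z 0) (n + z 1 + 1) =
            (V (m + z 0 + s) (n + z 1 + t))⁻¹ * V (m + z 0 + s) (n + z 1 + t + 1) :=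
          congrArg Prod.snd hc
        have h2 : V (m + z 0 + s) (n + z 1 + t + 1) = V (m + z 0 + s) (n + z 1 + t) *
            ((V (m + z 0) (n + z 1))⁻¹ * V (m + z 0) (n + z 1 + 1)) := by
          rw [h1, ← Matrix.mul_assoc, Matrix.mul_nonsing_inv _ hu2, Matrix.one_mul]
        have e2 : n + (z 1 + 1) + t = n + z 1 + t + 1 := by ring
        have e3 : n + (z 1 + 1) = n + z 1 + 1 := by ring
        rw [e3] at hu3
        rw [e2, e3, h2]
        simp only [Matrix.mul_assoc]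
        rw [Matrix.mul_nonsing_inv _ hu3, Matrix.mul_one])
    ![x, y] (fun i => by fin_cases i <;> simpa)
  have h1 : V (m + x + s) (n + y + t) * (V (m + x) (n + y))⁻¹ =
      V (m + s) (n + t) * (V m n)⁻¹ := by
    have := key
    simpa using this
  have ax := abs_le.1 hx
  have ay := abs_le.1 hy
  rw [← h1, Matrix.mul_assoc, Matrix.nonsing_inv_mul _ (hV.unit (by omega) (by omega)),
    Matrix.mul_one]

end Pool.Agent.V7H37.LI
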