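import Pool.Agent.V7H37.RT.Seq
import Pool.Agent.V7H37.RT.Prime
import Pool.Agent.N759.NV.Lit

/-! # Integral matrices at far points of the orbit of a counterexample: compactness -/

set_option autoImplicit false

open Filter Topology Matrix Polynomial

namespace Pool.Agent.V7H37.LI

open H715R2 Pool.Agent.N759.NV Pool.Agent.N759.WP Pool.Agent.N759.LC Pool.Agent.V7H37.RT

/-- the point of the orbit at the position `(X, Y)` -/
noncomputable def hp (α β X Y : ℝ) : Matrix (Fin 3) (Fin 3) ℝ := diagonal (av X Y) * LLm α β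

lemma hp_det {α β X Y : ℝ} (hX : 0 < X) (hY : 0 < Y) : |(hp α β X Y).det| = 1 := by
  rw [hp, det_mul, det_diagonal, av_prod hX hY, one_mul]
  exact LLm_det α β

lemma hp_ne {α β X Y : ℝ} (hX : 0 < X) (hY : 0 < Y) : (hp α β X Y).det ≠ 0 := by
  intro h0
  have := hp_det (α := α) (β := β) hX hY
  rw [h0, abs_zero] at this
  exact zero_ne_one this

/-- bases -/
theorem bases {α β ν : ℝ} (hν0 : 0 < ν)
    (hν : ∀ q p r : ℤ, q ≠ 0 → ν ≤ |(q : ℝ) * (α * q - p) * (β * q - r)|) :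
    ∃ R : ℝ, 0 ≤ R ∧ ∀ X Y : ℝ, 1 ≤ X → 1 ≤ Y → ∃ V : Matrix (Fin 3) (Fin 3) ℤ, IsUnit V.det ∧
      MB (hp α β X Y * zR V) R := by
  obtain ⟨C, hC⟩ := exists_good_bases hν0 hν
  refine ⟨|C|, abs_nonneg _, fun X Y hX hY => ?_⟩
  obtain ⟨V, hV, hV2⟩ := hC X Y hX hY
  have hX0 : 0 < X := by linarith
  have hY0 : 0 < Y := by linarith
  refine ⟨V, Int.isUnit_iff_abs_eq.2 hV, fun i k => ?_⟩
  refine le_trans ?_ (le_abs_self C)
  obtain ⟨h1, h2, h3⟩ := hV2 k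
  show |(diagonal (av X Y) * LLm α β * zR V) i k| ≤ C
  rw [← sc_eq]
  fin_cases i
  · show |(V 0 k : ℝ) / (X * Y)| ≤ C
    rw [abs_div, abs_of_pos (mul_pos hX0 hY0), div_le_iff₀ (mul_pos hX0 hY0)]
    exact h1
  · show |X * (α * V 0 k - V 1 k)| ≤ C
    rw [abs_mul, abs_of_pos hX0]
    exact h2
  · show |Y * (β * V 0 k - V 2 k)| ≤ C
    rw [abs_mul, abs_of_pos hY0]
    exact h3

/-- **Compactness.** -/
theorem compact {α β ν : ℝ} (hν0 : 0 < ν)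
    (hν : ∀ q p r : ℤ, q ≠ 0 → ν ≤ |(q : ℝ) * (α * q - p) * (β * q - r)|) {K : ℝ}
    (X Y : ℕ → ℝ) (hX : ∀ n : ℕ, (n : ℝ) + 1 ≤ X n) (hY : ∀ n : ℕ, (n : ℝ) + 1 ≤ Y n)
    (γ : ℕ → Matrix (Fin 3) (Fin 3) ℤ) (hγ : ∀ n, MB (Xm (hp α β (X n) (Y n)) (γ n)) K) :
    ∃ h ∈ YY (LLm α β), ∃ (γ' : Matrix (Fin 3) (Fin 3) ℤ) (φ : ℕ → ℕ), StrictMono φ ∧
      (∀ n, ∃ V : Matrix (Fin 3) (Fin 3) ℤ, IsUnit V.det ∧ γ' = V⁻¹ * γ (φ n) * V) ∧
      Tendsto (fun n => Xm (hp α β (X (φ n)) (Y (φ n))) (γ (φ n))) atTop (𝓝 (Xm h γ')) := by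
  classical
  obtain ⟨R, hR0, hR⟩ := bases hν0 hν
  have hX1 : ∀ n, 1 ≤ X n := fun n => by
    have := hX n
    have h2 : (0 : ℝ) ≤ n := Nat.cast_nonneg n
    linarith
  have hY1 : ∀ n, 1 ≤ Y n := fun n => by
    have := hY n
    have h2 : (0 : ℝ) ≤ n := Nat.cast_nonneg n
    linarith
  have hX0 : ∀ n, 0 < X n := fun n => by linarith [hX1 n]
  have hY0 : ∀ n, 0 < Y n := fun n => by linarith [hY1 n]
  choose V hV hVR using fun n => hR (X n) (Y n) (hX1 n) (hY1 n)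
  set y : ℕ → Matrix (Fin 3) (Fin 3) ℝ := fun n => hp α β (X n) (Y n) * zR (V n) with hy
  have hyN : ∀ n (N : ℕ), N ≤ n → y n ∈ OrbN (LLm α β) N := by
    intro n N hn
    have h1 : (N : ℝ) ≤ n := by exact_mod_cast hn
    refine ⟨av (X n) (Y n), V n, av_pos (hX0 n) (hY0 n), av_prod (hX0 n) (hY0 n), ?_, ?_, hV n, rfl⟩
    · have h2 := hX n
      show (N : ℝ) ≤ X n
      linarith
    · have h2 := hY n
      show (N : ℝ) ≤ Y n
      linarith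
  have hydet : ∀ n, |(y n).det| = 1 := fun n => by
    rw [abs_det_orb (OrbN_subset _ 0 (hyN n 0 (Nat.zero_le _))), LLm_det]
  obtain ⟨h, -, φ, hφ, hlim⟩ := (isCompact_box (d := 3) R).tendsto_subseq (x := y) (fun m => hVR m)
  have hhY : h ∈ YY (LLm α β) := by
    rw [YY, Set.mem_iInter]
    intro N
    refine mem_closure_of_tendsto hlim ?_
    filter_upwards [eventually_ge_atTop N] with n hn
    exact hyN _ _ (hn.trans (hφ.id_le n))
  have hdeth : |h.det| = 1 := by rw [abs_det_closure (YY_subset _ hhY), LLm_det]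
  have hh : h.det ≠ 0 := by
    intro h0
    rw [h0, abs_zero] at hdeth
    exact zero_ne_one hdeth
  have hxdet : ∀ n, (y n).det ≠ 0 := by
    intro n h0
    have := hydet n
    rw [h0, abs_zero] at this
    exact zero_ne_one this
  -- the matrices are bounded
  set γ₁ : ℕ → Matrix (Fin 3) (Fin 3) ℤ := fun n => (V n)⁻¹ * γ n * V n with hγ₁
  have hXe : ∀ n, Xm (y n) (γ₁ n) = Xm (hp α β (X n) (Y n)) (γ n) := fun n => by
    rw [hy, hγ₁]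
    exact Xm_mulV (hV n) (γ n)
  set T : ℝ := (3 : ℕ) * ((3 : ℕ) * ((1 : ℝ)⁻¹ * ((Nat.factorial 3 : ℕ) * (max R 1) ^ 3) * K) * R)
    with hT
  have hbd : ∀ n, MB (zR (γ₁ n)) T := by
    intro n
    have hu : IsUnit (y n).det := isUnit_iff_ne_zero.2 (hxdet n)
    have e : zR (γ₁ n) = (y n)⁻¹ * Xm (y n) (γ₁ n) * y n := by
      unfold Xm
      calc zR (γ₁ n) = ((y n)⁻¹ * y n) * zR (γ₁ n) * ((y n)⁻¹ * y n) := by
            rw [Matrix.nonsing_inv_mul _ hu, Matrix.one_mul, Matrix.mul_one]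
        _ = (y n)⁻¹ * (y n * zR (γ₁ n) * (y n)⁻¹) * y n := by simp only [Matrix.mul_assoc]
    rw [e]
    have h1 : MB (Xm (y n) (γ₁ n)) K := by rw [hXe]; exact hγ n
    exact ((inv_MB (hVR n) (hydet n)).mul h1).mul (hVR n)
  have hfin : ({M : Fin 3 → Fin 3 → ℤ | ∀ i k, M i k ∈ Set.Icc (-⌈T⌉) ⌈T⌉}).Finite := by
    have h2 : ({v : Fin 3 → ℤ | ∀ k, v k ∈ Set.Icc (-⌈T⌉) ⌈T⌉}).Finite :=
      Set.Finite.pi' fun _ => Set.finite_Icc _ _
    exact Set.Finite.pi' fun _ => h2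
  have hmem : ∀ n, (γ₁ n : Fin 3 → Fin 3 → ℤ) ∈
      {M : Fin 3 → Fin 3 → ℤ | ∀ i k, M i k ∈ Set.Icc (-⌈T⌉) ⌈T⌉} := by
    intro n i k
    have h2 : |((γ₁ n i k : ℤ) : ℝ)| ≤ T := hbd n i k
    have h2 := abs_le.1 h2
    have h3 := Int.le_ceil T
    constructor
    · have : ((-⌈T⌉ : ℤ) : ℝ) ≤ ((γ₁ n i k : ℤ) : ℝ) := by
        rw [Int.cast_neg]
        linarith [h2.1]
      exact_mod_cast this
    · have : ((γ₁ n i k : ℤ) : ℝ) ≤ ((⌈T⌉ : ℤ) : ℝ) := h2.2.trans h3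
      exact_mod_cast this
  obtain ⟨γ', hfreq⟩ : ∃ γ' : Fin 3 → Fin 3 → ℤ, ∃ᶠ n in atTop, (γ₁ (φ n) : Fin 3 → Fin 3 → ℤ) = γ' := by
    by_contra hcon
    push Not at hcon
    have h1 : ∀ᶠ n : ℕ in atTop, ∀ γ' ∈ {M : Fin 3 → Fin 3 → ℤ | ∀ i k, M i k ∈ Set.Icc (-⌈T⌉) ⌈T⌉},
        (γ₁ (φ n) : Fin 3 → Fin 3 → ℤ) ≠ γ' := by
      rw [eventually_all_finite hfin]
      intro γ' _
      exact hcon γ'
    obtain ⟨n, hn⟩ := h1.exists
    exact hn _ (hmem _) rfl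
  obtain ⟨ψ, hψ, hψ2⟩ := extraction_of_frequently_atTop hfreq
  refine ⟨h, hhY, γ', φ ∘ ψ, hφ.comp hψ, fun n => ⟨V (φ (ψ n)), hV _, ?_⟩, ?_⟩
  · exact (hψ2 n).symm
  have hlimX : Tendsto (fun n => Xm (y (φ n)) (γ' : Matrix (Fin 3) (Fin 3) ℤ)) atTop
      (𝓝 (Xm h (γ' : Matrix (Fin 3) (Fin 3) ℤ))) := by
    have h1 : Tendsto (fun n => (y (φ n))⁻¹) atTop (𝓝 h⁻¹) := by
      have h2 : ∀ M : Matrix (Fin 3) (Fin 3) ℝ, M⁻¹ = (M.det)⁻¹ • M.adjugate := by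
        intro M
        rw [Matrix.inv_def, Ring.inverse_eq_inv']
      rw [h2 h]
      refine Tendsto.congr (fun n => (h2 (y (φ n))).symm) ?_
      refine Tendsto.smul ?_ ?_
      · exact ((continuous_det'.tendsto h).comp hlim).inv₀ hh
      · exact ((Continuous.matrix_adjugate continuous_id).tendsto h).comp hlim
    unfold Xm
    exact (hlim.mul tendsto_const_nhds).mul h1
  refine (hlimX.comp hψ.tendsto_atTop).congr fun n => ?_
  have h4 := hψ2 n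
  show Xm (y (φ (ψ n))) (γ' : Matrix (Fin 3) (Fin 3) ℤ) = _
  rw [← h4]
  exact hXe _

end Pool.Agent.V7H37.LI
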