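import Pool.Agent.V7H37.LI.Row
import Pool.Agent.V7H37.LI.Compact
import Pool.Agent.V7H37.LI.Chain
import Pool.Agent.V7H37.RT.Const
import Pool.Agent.H715R2.Littlewood

/-! # Near-diagonal integral matrices at the positions of a counterexample: bounded islands -/

set_option autoImplicit false

open Filter Topology Matrix Polynomial

namespace Pool.Agent.V7H37.LI

open H715R2 Pool.Agent.N759.NV Pool.Agent.N759.WP Pool.Agent.N759.LC Pool.Agent.V7H37.RT

/-- no row is almost an eigenvector -/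
theorem no_row {α β ν : ℝ} (hν0 : 0 < ν)
    (hν : ∀ q p r : ℤ, q ≠ 0 → ν ≤ |(q : ℝ) * (α * q - p) * (β * q - r)|) (K : ℝ) (i : Fin 3) :
    ∃ M : ℕ, ∀ X Y : ℝ, (M : ℝ) ≤ X → (M : ℝ) ≤ Y → ∀ γ : Matrix (Fin 3) (Fin 3) ℤ, Irr γ →
      MB (Xm (hp α β X Y) γ) K → ∃ j, j ≠ i ∧ 1 < M * |Xm (hp α β X Y) γ i j| := by
  by_contra hcon
  push Not at hcon
  choose X Y hX hY γ hγ hK hsmall using fun n : ℕ => hcon (n + 1)
  obtain ⟨h, hh, γ', φ, hφ, hconj, hlim⟩ := compact hν0 hν X Y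
    (fun n => by have := hX n; push_cast at this; exact this)
    (fun n => by have := hY n; push_cast at this; exact this) γ hK
  have hdeth : |h.det| = 1 := by rw [abs_det_closure (YY_subset _ hh), LLm_det]
  have hdet : h.det ≠ 0 := by
    intro h0
    rw [h0, abs_zero] at hdeth
    exact zero_ne_one hdeth
  have hirr : Irr γ' := by
    obtain ⟨V, hV, hVe⟩ := hconj 0
    rw [hVe]
    exact irr_conj hV (hγ _)
  have hzero : ∀ j, j ≠ i → Xm h γ' i j = 0 := by
    intro j hj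
    have h1 : Tendsto (fun n => Xm (hp α β (X (φ n)) (Y (φ n))) (γ (φ n)) i j) atTop
        (𝓝 (Xm h γ' i j)) := by
      have hc : Continuous (fun M : Matrix (Fin 3) (Fin 3) ℝ => M i j) := continuous_apply_apply i j
      exact (hc.tendsto _).comp hlim
    refine tendsto_nhds_unique h1 ?_
    refine squeeze_zero_norm (a := fun n : ℕ => 1 / ((n : ℝ) + 1)) (fun n => ?_)
      tendsto_one_div_add_atTop_nhds_zero_nat
    have h2 := hsmall (φ n) j hj
    have h3 : (n : ℝ) ≤ φ n := by exact_mod_cast hφ.id_le n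
    rw [Real.norm_eq_abs, le_div_iff₀ (by positivity), mul_comm]
    refine le_trans (mul_le_mul_of_nonneg_right ?_ (abs_nonneg _)) h2
    push_cast
    linarith
  obtain ⟨L, hfin, hrank, s, hs, hmem⟩ := alg_row hdet hirr hzero
  exact no_alg_point hν0 hν hh i s hs L hrank hmem

/-- near-diagonal integral matrices which are not scalar are irreducible far out -/
theorem irr_far {α β ν : ℝ} (hν0 : 0 < ν)
    (hν : ∀ q p r : ℤ, q ≠ 0 → ν ≤ |(q : ℝ) * (α * q - p) * (β * q - r)|) {R : ℝ} (hR0 : 0 ≤ R)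
    (hR : ∀ h : Matrix (Fin 3) (Fin 3) ℝ, |h.det| = 1 → HasNu h ν →
      ∃ γ : Matrix (Fin 3) (Fin 3) ℤ, IsUnit γ.det ∧ MB (h * zR γ) R)
    {B η : ℝ} (hB : 1 ≤ B) (hη : 0 ≤ η) (hη1 : η ≤ 1)
    (hsmall : 2 * ((3 : ℕ) * (((3 : ℕ) + 1) * ((2 * ((3 : ℕ) * B)) ^ 3 *
      ((3 : ℕ) * ((3 : ℕ) * B) ^ 3 * η))) * R) *
      ((3 : ℕ) * (((3 : ℕ) + 1) * ((2 * ((3 : ℕ) * B)) ^ 3 * ((3 : ℕ) * B) ^ 3)) * R) ^ (3 - 1) < ν) :
    ∃ M : ℕ, ∀ X Y : ℝ, (M : ℝ) ≤ X → (M : ℝ) ≤ Y → ∀ γ : Matrix (Fin 3) (Fin 3) ℤ,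
      (∀ c : ℤ, γ ≠ c • (1 : Matrix (Fin 3) (Fin 3) ℤ)) → ND B η (Xm (hp α β X Y) γ) → Irr γ := by
  by_contra hcon
  push Not at hcon
  choose X Y hX hY γ hns hND hirr using fun n : ℕ => hcon (n + 1)
  obtain ⟨h, hh, γ', φ, hφ, hconj, hlim⟩ := compact hν0 hν (K := B) X Y
    (fun n => by have := hX n; push_cast at this; exact this)
    (fun n => by have := hY n; push_cast at this; exact this) γ
    (fun n => (hND n).mb (hη1.trans hB))
  have hdeth : |h.det| = 1 := by rw [abs_det_closure (YY_subset _ hh), LLm_det]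
  have hdet : h.det ≠ 0 := by
    intro h0
    rw [h0, abs_zero] at hdeth
    exact zero_ne_one hdeth
  obtain ⟨V, hV, hVe⟩ := hconj 0
  have hback : γ (φ 0) = V * γ' * V⁻¹ := by
    rw [hVe]
    calc γ (φ 0) = (V * V⁻¹) * γ (φ 0) * (V * V⁻¹) := by
          rw [Matrix.mul_nonsing_inv _ hV, Matrix.one_mul, Matrix.mul_one]
      _ = V * (V⁻¹ * γ (φ 0) * V) * V⁻¹ := by simp only [Matrix.mul_assoc]
  have hns' : ∀ c : ℤ, γ' ≠ c • (1 : Matrix (Fin 3) (Fin 3) ℤ) := by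
    intro c hc
    apply hns (φ 0) c
    rw [hback, hc, Matrix.mul_smul, Matrix.mul_one, Matrix.smul_mul, Matrix.mul_nonsing_inv _ hV]
  have hNDh : ND B η (Xm h γ') := by
    intro i j
    have h1 : Tendsto (fun n => |Xm (hp α β (X (φ n)) (Y (φ n))) (γ (φ n)) i j|) atTop
        (𝓝 |Xm h γ' i j|) := by
      have hc : Continuous (fun M : Matrix (Fin 3) (Fin 3) ℝ => |M i j|) :=
        continuous_abs.comp (continuous_apply_apply i j)
      exact (hc.tendsto _).comp hlim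
    exact le_of_tendsto h1 (Eventually.of_forall fun n => hND (φ n) i j)
  obtain ⟨W, hW, hWR⟩ := hR h hdeth (YY_nu hν hh)
  have hI : Irr γ' := irr_of_near (by norm_num) hdet (YY_nu hν hh) hW hR0 hWR hB hη
    (hη1.trans hB) hNDh hsmall hns'
  apply hirr (φ 0)
  have hV' : IsUnit (V⁻¹).det := by
    rw [Matrix.det_nonsing_inv]
    exact hV.ringInverse
  have h2 := irr_conj hV' hI
  rwa [Matrix.nonsing_inv_nonsing_inv _ hV, ← hback] at h2

/-- one step of a chain -/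
lemma step_av {B X X' Y Y' : ℝ} (hB1 : 1 ≤ B) (p1 : 0 < X) (p2 : 0 < X') (p3 : 0 < Y)
    (p4 : 0 < Y') (s1 : X' ≤ B * X) (s2 : X ≤ B * X') (s3 : Y' ≤ B * Y) (s4 : Y ≤ B * Y')
    (i j : Fin 3) : av X' Y' i * av X Y j ≤ B ^ 3 * (av X Y i * av X' Y' j) := by
  have hB0 : 0 < B := by linarith
  have h12 : B ≤ B ^ 2 := by nlinarith
  have h23 : B ^ 2 ≤ B ^ 3 := pow_le_pow_right₀ hB1 (by norm_num)
  have h13 : 1 ≤ B ^ 3 := one_le_pow₀ hB1
  have q1 := av_pos p1 p3
  have q2 := av_pos p2 p4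
  obtain ⟨u, hu0, hle, hle', huu⟩ : ∃ u : Fin 3 → ℝ, (∀ i, 0 < u i) ∧
      (∀ i, av X' Y' i ≤ u i * av X Y i) ∧ (∀ i, av X Y i ≤ u i * av X' Y' i) ∧
      ∀ i j, i ≠ j → u i * u j ≤ B ^ 3 := by
    have a1 : (X' * Y')⁻¹ ≤ B ^ 2 * (X * Y)⁻¹ := by
      rw [← div_eq_mul_inv, inv_le_iff_one_le_mul₀ (by positivity), div_mul_eq_mul_div,
        le_div_iff₀ (by positivity), one_mul]
      calc X * Y ≤ (B * X') * (B * Y') := mul_le_mul s2 s4 p3.le (by positivity)
        _ = B ^ 2 * (X' * Y') := by ring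
    have a2 : (X * Y)⁻¹ ≤ B ^ 2 * (X' * Y')⁻¹ := by
      rw [← div_eq_mul_inv, inv_le_iff_one_le_mul₀ (by positivity), div_mul_eq_mul_div,
        le_div_iff₀ (by positivity), one_mul]
      calc X' * Y' ≤ (B * X) * (B * Y) := mul_le_mul s1 s3 p4.le (by positivity)
        _ = B ^ 2 * (X * Y) := by ring
    have e3 : B ^ 2 * B = B ^ 3 := by ring
    have e3' : B * B ^ 2 = B ^ 3 := by ring
    have e4 : B * B = B ^ 2 := by ring
    refine ⟨![B ^ 2, B, B], fun i => ?_, fun i => ?_, fun i => ?_, fun i j hij => ?_⟩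
    · fin_cases i
      · exact pow_pos hB0 2
      · exact hB0
      · exact hB0
    · fin_cases i
      · exact a1
      · exact s1
      · exact s3
    · fin_cases i
      · exact a2
      · exact s2
      · exact s4
    · fin_cases i <;> fin_cases j
      · exact absurd rfl hij
      · exact e3.le
      · exact e3.le
      · exact e3'.le
      · exact absurd rfl hij
      · exact e4.le.trans h23
      · exact e3'.le
      · exact e4.le.trans h23
      · exact absurd rfl hij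
  have hpos : 0 < av X Y i * av X' Y' j := mul_pos (q1 i) (q2 j)
  by_cases hij : i = j
  · subst hij
    calc av X' Y' i * av X Y i = 1 * (av X Y i * av X' Y' i) := by ring
      _ ≤ B ^ 3 * (av X Y i * av X' Y' i) := mul_le_mul_of_nonneg_right h13 hpos.le
  · calc av X' Y' i * av X Y j ≤ (u i * av X Y i) * (u j * av X' Y' j) :=
          mul_le_mul (hle i) (hle' j) (q1 j).le (mul_pos (hu0 i) (q1 i)).le
      _ = (u i * u j) * (av X Y i * av X' Y' j) := by ring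
      _ ≤ B ^ 3 * (av X Y i * av X' Y' j) := mul_le_mul_of_nonneg_right (huu i j hij) hpos.le

/-- **Bounded islands.** -/
theorem islands {α β ν : ℝ} (hν0 : 0 < ν)
    (hν : ∀ q p r : ℤ, q ≠ 0 → ν ≤ |(q : ℝ) * (α * q - p) * (β * q - r)|) :
    ∃ C : ℕ, ∀ B : ℝ, 2 ≤ B → ∃ M : ℝ, 1 ≤ M ∧ ∀ (n : ℕ) (X Y : ℕ → ℝ),
      (∀ k ≤ n, M ≤ X k ∧ M ≤ Y k) →
      (∀ k < n, X (k + 1) ≤ B * X k ∧ X k ≤ B * X (k + 1) ∧
        Y (k + 1) ≤ B * Y k ∧ Y k ≤ B * Y (k + 1)) →
      (∀ k ≤ n, ∃ γ : Matrix (Fin 3) (Fin 3) ℤ, (∀ c : ℤ, γ ≠ c • (1 : Matrix (Fin 3) (Fin 3) ℤ)) ∧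
        ND B (1 / B ^ C) (Xm (hp α β (X k) (Y k)) γ)) →
      X n ≤ M * X 0 ∧ X 0 ≤ M * X n ∧ Y n ≤ M * Y 0 ∧ Y 0 ≤ M * Y n := by
  classical
  obtain ⟨R₁, hR₁0, hR₁⟩ := bases hν0 hν
  obtain ⟨R₂, hR₂⟩ := H715R2.exists_bound (d := 3) (by norm_num) 1 ν one_pos hν0
  set R : ℝ := max R₁ |R₂| with hRdef
  have hR0 : 0 ≤ R := hR₁0.trans (le_max_left _ _)
  have hRb : ∀ X Y : ℝ, 1 ≤ X → 1 ≤ Y → ∃ V : Matrix (Fin 3) (Fin 3) ℤ, IsUnit V.det ∧
      MB (hp α β X Y * zR V) R := by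
    intro X Y hX hY
    obtain ⟨V, hV, hVR⟩ := hR₁ X Y hX hY
    exact ⟨V, hV, fun i j => (hVR i j).trans (le_max_left _ _)⟩
  have hRl : ∀ h : Matrix (Fin 3) (Fin 3) ℝ, |h.det| = 1 → HasNu h ν →
      ∃ γ : Matrix (Fin 3) (Fin 3) ℤ, IsUnit γ.det ∧ MB (h * zR γ) R := by
    intro h h1 h2
    obtain ⟨γ, hγ, hγR⟩ := hR₂ h h1 h2
    exact ⟨γ, hγ, fun i j => (hγR i j).trans ((le_abs_self _).trans (le_max_right _ _))⟩
  obtain ⟨C₀, hC₀⟩ := exists_consts 3 R ((1 : ℝ)⁻¹ * ((Nat.factorial 3 : ℕ) * (max R 1) ^ 3)) hν0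
  refine ⟨3 * C₀, fun B hB => ?_⟩
  have hB0 : 0 < B := by linarith
  have hB1 : 1 ≤ B := by linarith
  set D : ℝ := B ^ 3 with hD
  have hBD : B ≤ D := by
    calc B = B ^ 1 := (pow_one B).symm
      _ ≤ B ^ 3 := pow_le_pow_right₀ hB1 (by norm_num)
  have hD2 : 2 ≤ D := hB.trans hBD
  have hD1 : 1 ≤ D := by linarith
  obtain ⟨c1, c2, c3, c4⟩ := hC₀ C₀ le_rfl D hD2
  set η : ℝ := 1 / D ^ C₀ with hη
  have hηB : 1 / B ^ (3 * C₀) = η := by rw [hη, hD, ← pow_mul]
  have hη0 : 0 < η := by positivity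
  have hη1 : η ≤ 1 := by
    rw [hη, div_le_one (by positivity)]
    exact one_le_pow₀ hD1
  obtain ⟨M₀, hM₀⟩ := irr_far hν0 hν hR0 hRl hD1 hη0.le hη1 c4
  choose Mr hMr using fun i : Fin 3 => no_row hν0 hν (2 * ((3 : ℕ) * D)) i
  set M' : ℕ := M₀ + Mr 0 + Mr 1 + Mr 2 + 1 with hM'
  have hMrM : ∀ i, (Mr i : ℝ) ≤ M' := by
    intro i
    have : Mr i ≤ M' := by
      fin_cases i <;> simp only [hM'] <;> simp <;> omega
    exact_mod_cast this
  have hM'1 : (1 : ℝ) ≤ M' := by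
    have : 1 ≤ M' := by omega
    exact_mod_cast this
  set T : ℝ := 2 * (3 * D) * M' + 2 with hT
  have hT1 : 1 < T := by
    have : 0 ≤ 2 * (3 * D) * M' := by positivity
    linarith
  have hTM : 2 * (3 * D) * M' ≤ T := by linarith
  set M : ℝ := T ^ 2 + M' with hM
  have hMM' : (M' : ℝ) ≤ M := by
    have : 0 ≤ T ^ 2 := by positivity
    linarith
  have hMT : T ^ 2 ≤ M := by linarith
  refine ⟨M, hM'1.trans hMM', fun n X Y hXY hstep hnear => ?_⟩
  choose γ hns hNDγ using hnear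
  -- the chain
  set X' : ℕ → ℝ := fun k => X (min k n) with hX'
  set Y' : ℕ → ℝ := fun k => Y (min k n) with hY'
  have hX'M : ∀ k, M ≤ X' k ∧ M ≤ Y' k := fun k => hXY _ (min_le_right _ _)
  have hX'0 : ∀ k, 0 < X' k := fun k => by linarith [(hX'M k).1]
  have hY'0 : ∀ k, 0 < Y' k := fun k => by linarith [(hX'M k).2]
  set γ' : ℕ → Matrix (Fin 3) (Fin 3) ℤ := fun k => γ (min k n) (min_le_right _ _) with hγ'
  have hND' : ∀ k, ND D η (Xm (diagonal (av (X' k) (Y' k)) * LLm α β) (γ' k)) := by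
    intro k
    have := hNDγ (min k n) (min_le_right _ _)
    rw [hηB] at this
    exact this.mono hBD le_rfl
  have hirr' : ∀ k, Irr (γ' k) := fun k =>
    hM₀ (X' k) (Y' k) (le_trans (by
      have : M₀ ≤ M' := by omega
      exact_mod_cast this) (hMM'.trans (hX'M k).1)) (le_trans (by
      have : M₀ ≤ M' := by omega
      exact_mod_cast this) (hMM'.trans (hX'M k).2)) (γ' k) (hns _ _) (hND' k)
  have hg : (LLm α β).det ≠ 0 := by
    intro h0
    have := LLm_det α β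
    rw [h0, abs_zero] at this
    exact zero_ne_one this
  set c : ℕ → Fin 3 → ℝ := fun k => av (X' k) (Y' k) with hc
  have hc0 : ∀ k i, 0 < c k i := fun k => av_pos (hX'0 k) (hY'0 k)
  have hc1 : ∀ k, ∏ i, c k i = 1 := fun k => av_prod (hX'0 k) (hY'0 k)
  have hcst : ∀ k < n, ∀ i j, c (k + 1) i * c k j ≤ D * (c k i * c (k + 1) j) := by
    intro k hk i j
    have e1 : X' k = X k := by
      simp only [hX']
      rw [min_eq_left hk.le]
    have e2 : X' (k + 1) = X (k + 1) := by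
      simp only [hX']
      rw [min_eq_left (by omega)]
    have e3 : Y' k = Y k := by
      simp only [hY']
      rw [min_eq_left hk.le]
    have e4 : Y' (k + 1) = Y (k + 1) := by
      simp only [hY']
      rw [min_eq_left (by omega)]
    obtain ⟨s1, s2, s3, s4⟩ := hstep k hk
    rw [← e1, ← e2] at s1 s2
    rw [← e3, ← e4] at s3 s4
    have p1 := hX'0 k
    have p2 := hX'0 (k + 1)
    have p3 := hY'0 k
    have p4 := hY'0 (k + 1)
    exact step_av hB1 p1 p2 p3 p4 s1 s2 s3 s4 i j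
  have hbound := chain_bound (d := 3) (by norm_num) hg (R := R)
    (R' := (1 : ℝ)⁻¹ * ((Nat.factorial 3 : ℕ) * (max R 1) ^ 3)) c hc0 hc1 n (fun k _ => by
      obtain ⟨V, hV, hVR⟩ := hRb (X' k) (Y' k) ((hM'1.trans hMM').trans (hX'M k).1)
        ((hM'1.trans hMM').trans (hX'M k).2)
      have hdd : |(diagonal (c k) * LLm α β).det| = 1 := hp_det (hX'0 k) (hY'0 k)
      refine ⟨V, hV, hVR, inv_MB hVR ?_⟩
      rw [det_mul, abs_mul, hdd, det_zR, abs_det_of_isUnit hV, mul_one])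
    hD1 hη0.le hη1 hcst c1 c2 c3 γ' (fun k _ => hirr' k) (fun k _ => hND' k)
  -- the endpoints
  by_contra hfar
  set b : Fin 3 → ℝ := fun i => c n i / c 0 i with hb
  have hb0 : ∀ i, 0 < b i := fun i => div_pos (hc0 _ _) (hc0 _ _)
  have hb1 : ∏ i, b i = 1 := by rw [hb, Finset.prod_div_distrib, hc1, hc1, div_one]
  have hex1 : ∃ q, b q ≤ 1 := by
    by_contra hcon
    push Not at hcon
    rw [Fin.prod_univ_three] at hb1
    have h0 := hcon 0
    have h1 := hcon 1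
    have h2 := hcon 2
    have h3 : 1 < b 0 * b 1 := by nlinarith
    nlinarith
  have hex2 : ∃ p, 1 ≤ b p := by
    by_contra hcon
    push Not at hcon
    rw [Fin.prod_univ_three] at hb1
    have h0 := hcon 0
    have h1 := hcon 1
    have h2 := hcon 2
    have g0 := hb0 0
    have g1 := hb0 1
    have g2 := hb0 2
    have h3 : b 0 * b 1 < 1 := by nlinarith
    nlinarith
  have e0 : X' 0 = X 0 := by
    simp only [hX']
    rw [Nat.zero_min]
  have en : X' n = X n := by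
    simp only [hX']
    rw [min_self]
  have f0 : Y' 0 = Y 0 := by
    simp only [hY']
    rw [Nat.zero_min]
  have fn : Y' n = Y n := by
    simp only [hY']
    rw [min_self]
  obtain ⟨p, q, hpq⟩ : ∃ p q, T ^ 2 * b q ≤ b p := by
    obtain ⟨q, hq⟩ := hex1
    obtain ⟨p, hp⟩ := hex2
    have hT0 : 0 < T ^ 2 := by positivity
    have hbX : b 1 = X n / X 0 := by rw [← e0, ← en]; rfl
    have hbY : b 2 = Y n / Y 0 := by rw [← f0, ← fn]; rfl
    have hX0p : 0 < X 0 := by rw [← e0]; exact hX'0 0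
    have hXnp : 0 < X n := by rw [← en]; exact hX'0 n
    have hY0p : 0 < Y 0 := by rw [← f0]; exact hY'0 0
    have hYnp : 0 < Y n := by rw [← fn]; exact hY'0 n
    have up : ∀ i, T ^ 2 ≤ b i → T ^ 2 * b q ≤ b i := fun i hi => by nlinarith
    have down : ∀ i, T ^ 2 * b i ≤ 1 → T ^ 2 * b i ≤ b p := fun i hi => hi.trans hp
    rw [not_and_or, not_and_or, not_and_or] at hfar
    push Not at hfar
    rcases hfar with h | h | h | h
    · refine ⟨1, q, up 1 ?_⟩
      rw [hbX, le_div_iff₀ hX0p]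
      nlinarith
    · refine ⟨p, 1, down 1 ?_⟩
      rw [hbX, ← mul_div_assoc, div_le_one hX0p]
      nlinarith
    · refine ⟨2, q, up 2 ?_⟩
      rw [hbY, le_div_iff₀ hY0p]
      nlinarith
    · refine ⟨p, 2, down 2 ?_⟩
      rw [hbY, ← mul_div_assoc, div_le_one hY0p]
      nlinarith
  obtain ⟨i, hi⟩ := gap3 hb0 hT1 hpq
  have habs : ∀ (γ₀ : Matrix (Fin 3) (Fin 3) ℤ) (j : Fin 3),
      |Xm (diagonal (c n) * LLm α β) γ₀ i j| * b j = |Xm (diagonal (c 0) * LLm α β) γ₀ i j| * b i := by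
    intro γ₀ j
    have h1 := Xm_ratio hg (hc0 0) (hc0 n) γ₀ i j
    have h2 : Xm (diagonal (c n) * LLm α β) γ₀ i j * b j =
        Xm (diagonal (c 0) * LLm α β) γ₀ i j * b i := by
      have g1 := (hc0 0 i).ne'
      have g2 := (hc0 0 j).ne'
      simp only [hb]
      rw [← mul_div_assoc, ← mul_div_assoc, div_eq_div_iff g2 g1]
      linarith
    calc |Xm (diagonal (c n) * LLm α β) γ₀ i j| * b j
        = |Xm (diagonal (c n) * LLm α β) γ₀ i j * b j| := by rw [abs_mul, abs_of_pos (hb0 j)]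
      _ = |Xm (diagonal (c 0) * LLm α β) γ₀ i j * b i| := by rw [h2]
      _ = _ := by rw [abs_mul, abs_of_pos (hb0 i)]
  have h3 : ((3 : ℕ) : ℝ) = 3 := by norm_num
  rcases hi with hi | hi
  · obtain ⟨j, hj, hbig⟩ := hMr i (X' 0) (Y' 0) ((hMrM i).trans (hMM'.trans (hX'M 0).1))
      ((hMrM i).trans (hMM'.trans (hX'M 0).2)) (γ' 0) (hirr' 0)
      (hbound 0 (Nat.zero_le _) 0 (Nat.zero_le _))
    have k1 := hbound n le_rfl 0 (Nat.zero_le _) i j
    have k2 := habs (γ' 0) j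
    have k3 := hi j hj
    set x : ℝ := |Xm (diagonal (c 0) * LLm α β) (γ' 0) i j| with hx
    have hx0 : 0 ≤ x := abs_nonneg _
    have k4 : x * T ≤ 2 * (3 * D) := by
      have k5 : x * (T * b j) ≤ 2 * (3 * D) * b j := by
        calc x * (T * b j) ≤ x * b i := mul_le_mul_of_nonneg_left k3 hx0
          _ = |Xm (diagonal (c n) * LLm α β) (γ' 0) i j| * b j := k2.symm
          _ ≤ 2 * (3 * D) * b j := by
            refine mul_le_mul_of_nonneg_right ?_ (hb0 j).le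
            rw [h3] at k1
            exact k1
      have k6 : (x * T) * b j ≤ 2 * (3 * D) * b j := by linarith
      exact le_of_mul_le_mul_right k6 (hb0 j)
    have k7 : x * M' ≤ 1 := by
      have k8 : x * M' * (2 * (3 * D)) ≤ 1 * (2 * (3 * D)) := by
        calc x * M' * (2 * (3 * D)) = x * (2 * (3 * D) * M') := by ring
          _ ≤ x * T := mul_le_mul_of_nonneg_left hTM hx0
          _ ≤ 1 * (2 * (3 * D)) := by linarith
      exact le_of_mul_le_mul_right k8 (by positivity)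
    have k9 : (Mr i : ℝ) * x ≤ x * M' := by
      rw [mul_comm]
      exact mul_le_mul_of_nonneg_left (hMrM i) hx0
    have k10 : 1 < (Mr i : ℝ) * x := hbig
    linarith
  · obtain ⟨j, hj, hbig⟩ := hMr i (X' n) (Y' n) ((hMrM i).trans (hMM'.trans (hX'M n).1))
      ((hMrM i).trans (hMM'.trans (hX'M n).2)) (γ' n) (hirr' n)
      (hbound n le_rfl n le_rfl)
    have k1 := hbound 0 (Nat.zero_le _) n le_rfl i j
    have k2 := habs (γ' n) j
    have k3 := hi j hj
    set x : ℝ := |Xm (diagonal (c n) * LLm α β) (γ' n) i j| with hx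
    have hx0 : 0 ≤ x := abs_nonneg _
    have k4 : x * T ≤ 2 * (3 * D) := by
      have k5 : x * (T * b i) ≤ 2 * (3 * D) * b i := by
        calc x * (T * b i) ≤ x * b j := mul_le_mul_of_nonneg_left k3 hx0
          _ = |Xm (diagonal (c 0) * LLm α β) (γ' n) i j| * b i := k2
          _ ≤ 2 * (3 * D) * b i := by
            refine mul_le_mul_of_nonneg_right ?_ (hb0 i).le
            rw [h3] at k1
            exact k1
      have k6 : (x * T) * b i ≤ 2 * (3 * D) * b i := by linarith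
      exact le_of_mul_le_mul_right k6 (hb0 i)
    have k7 : x * M' ≤ 1 := by
      have k8 : x * M' * (2 * (3 * D)) ≤ 1 * (2 * (3 * D)) := by
        calc x * M' * (2 * (3 * D)) = x * (2 * (3 * D) * M') := by ring
          _ ≤ x * T := mul_le_mul_of_nonneg_left hTM hx0
          _ ≤ 1 * (2 * (3 * D)) := by linarith
      exact le_of_mul_le_mul_right k8 (by positivity)
    have k9 : (Mr i : ℝ) * x ≤ x * M' := by
      rw [mul_comm]
      exact mul_le_mul_of_nonneg_left (hMrM i) hx0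
    have k10 : 1 < (Mr i : ℝ) * x := hbig
    linarith

end Pool.Agent.V7H37.LI
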