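import Pool.Agent.V7H37.LI.Code
import Pool.Agent.V7H37.LI.Main

/-! # Local periods of the code of a counterexample -/

set_option autoImplicit false

open Filter Topology Matrix Polynomial

namespace Pool.Agent.V7H37.LI

open H715R2 Pool.Agent.N759.NV Pool.Agent.N759.WP Pool.Agent.N759.LC Pool.Agent.V7H37.RT

variable {α β ρ σ C μ : ℝ} {V : ℤ → ℤ → Matrix (Fin 3) (Fin 3) ℤ}

lemma av_add (hρ : 0 < ρ) (hσ : 0 < σ) (m n x y : ℤ) (i : Fin 3) :
    av (ρ ^ (m + x)) (σ ^ (n + y)) i = av (ρ ^ m) (σ ^ n) i * av (ρ ^ x) (σ ^ y) i := by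
  fin_cases i
  · show (ρ ^ (m + x) * σ ^ (n + y))⁻¹ = (ρ ^ m * σ ^ n)⁻¹ * (ρ ^ x * σ ^ y)⁻¹
    rw [zpow_add₀ hρ.ne', zpow_add₀ hσ.ne', ← mul_inv]
    congr 1
    ring
  · exact zpow_add₀ hρ.ne' m x
  · exact zpow_add₀ hσ.ne' n y

lemma hp_add (hρ : 0 < ρ) (hσ : 0 < σ) (m n x y : ℤ) :
    hp α β (ρ ^ (m + x)) (σ ^ (n + y)) = diagonal (av (ρ ^ x) (σ ^ y)) * hp α β (ρ ^ m) (σ ^ n) := by
  unfold hp
  rw [← Matrix.mul_assoc, diagonal_mul_diagonal]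
  congr 2
  funext i
  rw [av_add hρ hσ, mul_comm]

/-- the corners -/
lemma corner (hμ : 1 < μ) (hρ : μ ≤ ρ) (hσ : μ ≤ σ) (K : ℕ) (i j : Fin 3) (hij : i ≠ j) :
    ∃ x y : ℤ, |x| ≤ K ∧ |y| ≤ K ∧ μ ^ K * av (ρ ^ x) (σ ^ y) j ≤ av (ρ ^ x) (σ ^ y) i := by
  have hμ0 : 0 < μ := by linarith
  have hρ1 : 1 < ρ := by linarith
  have hσ1 : 1 < σ := by linarith
  have hρ0 : 0 < ρ := by linarith
  have hσ0 : 0 < σ := by linarith
  have r1 : 1 ≤ ρ ^ K := one_le_pow₀ hρ1.le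
  have s1 : 1 ≤ σ ^ K := one_le_pow₀ hσ1.le
  have mr : μ ^ K ≤ ρ ^ K := pow_le_pow_left₀ hμ0.le hρ K
  have ms : μ ^ K ≤ σ ^ K := pow_le_pow_left₀ hμ0.le hσ K
  have hKK : |(K : ℤ)| ≤ K := by rw [Nat.abs_cast]
  have hKK' : |-(K : ℤ)| ≤ K := by rw [abs_neg, Nat.abs_cast]
  have hr : 0 < ρ ^ K := by positivity
  have hs : 0 < σ ^ K := by positivity
  have m1 : μ ^ K * (ρ ^ K)⁻¹ ≤ 1 := by
    rw [← div_eq_mul_inv, div_le_one hr]; exact mr
  have m2 : μ ^ K * (σ ^ K)⁻¹ ≤ 1 := by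
    rw [← div_eq_mul_inv, div_le_one hs]; exact ms
  have m3 : μ ^ K * (ρ ^ K * σ ^ K)⁻¹ ≤ 1 := by
    rw [← div_eq_mul_inv, div_le_one (mul_pos hr hs)]
    calc μ ^ K ≤ ρ ^ K := mr
      _ ≤ ρ ^ K * σ ^ K := le_mul_of_one_le_right hr.le s1
  fin_cases i
  · refine ⟨-(K : ℤ), -(K : ℤ), hKK', hKK', ?_⟩
    have e0 : (1 : ℝ) ≤ av (ρ ^ (-(K : ℤ))) (σ ^ (-(K : ℤ))) 0 := by
      show 1 ≤ (ρ ^ (-(K : ℤ)) * σ ^ (-(K : ℤ)))⁻¹
      rw [_root_.zpow_neg, _root_.zpow_neg, zpow_natCast, zpow_natCast, ← mul_inv, inv_inv]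
      exact one_le_mul_of_one_le_of_one_le r1 s1
    refine le_trans ?_ e0
    fin_cases j
    · exact absurd rfl hij
    · show μ ^ K * ρ ^ (-(K : ℤ)) ≤ 1
      rw [_root_.zpow_neg, zpow_natCast]
      exact m1
    · show μ ^ K * σ ^ (-(K : ℤ)) ≤ 1
      rw [_root_.zpow_neg, zpow_natCast]
      exact m2
  · fin_cases j
    · refine ⟨K, K, hKK, hKK, ?_⟩
      show μ ^ K * (ρ ^ (K : ℤ) * σ ^ (K : ℤ))⁻¹ ≤ ρ ^ (K : ℤ)
      rw [zpow_natCast, zpow_natCast]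
      exact m3.trans r1
    · exact absurd rfl hij
    · refine ⟨K, -(K : ℤ), hKK, hKK', ?_⟩
      show μ ^ K * σ ^ (-(K : ℤ)) ≤ ρ ^ (K : ℤ)
      rw [_root_.zpow_neg, zpow_natCast, zpow_natCast]
      exact m2.trans r1
  · fin_cases j
    · refine ⟨K, K, hKK, hKK, ?_⟩
      show μ ^ K * (ρ ^ (K : ℤ) * σ ^ (K : ℤ))⁻¹ ≤ σ ^ (K : ℤ)
      rw [zpow_natCast, zpow_natCast]
      exact m3.trans s1
    · refine ⟨-(K : ℤ), K, hKK', hKK, ?_⟩
      show μ ^ K * ρ ^ (-(K : ℤ)) ≤ σ ^ (K : ℤ)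
      rw [_root_.zpow_neg, zpow_natCast, zpow_natCast]
      exact m1.trans s1
    · exact absurd rfl hij

/-- the weights of a short step -/
lemma av_le (hρ : 1 < ρ) (hσ : 1 < σ) {L : ℕ} {s t : ℤ} (hs : |s| ≤ L) (ht : |t| ≤ L) (i : Fin 3) :
    av (ρ ^ s) (σ ^ t) i ≤ (ρ * σ) ^ L := by
  have hρ0 : 0 < ρ := by linarith
  have hσ0 : 0 < σ := by linarith
  have hs' := abs_le.1 hs
  have ht' := abs_le.1 ht
  have r1 : 1 ≤ ρ ^ L := one_le_pow₀ hρ.le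
  have s1 : 1 ≤ σ ^ L := one_le_pow₀ hσ.le
  have up : ∀ x : ℤ, x ≤ L → ρ ^ x ≤ ρ ^ L := fun x hx => by
    rw [← zpow_natCast]
    exact zpow_le_zpow_right₀ hρ.le hx
  have up' : ∀ x : ℤ, x ≤ L → σ ^ x ≤ σ ^ L := fun x hx => by
    rw [← zpow_natCast]
    exact zpow_le_zpow_right₀ hσ.le hx
  rw [mul_pow]
  fin_cases i
  · show (ρ ^ s * σ ^ t)⁻¹ ≤ ρ ^ L * σ ^ L
    rw [mul_inv, ← _root_.zpow_neg, ← _root_.zpow_neg]
    exact mul_le_mul (up _ (by omega)) (up' _ (by omega)) (by positivity) (by positivity)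
  · show ρ ^ s ≤ ρ ^ L * σ ^ L
    exact (up s (by omega)).trans (le_mul_of_one_le_right (by positivity) s1)
  · show σ ^ t ≤ ρ ^ L * σ ^ L
    exact (up' t (by omega)).trans (le_mul_of_one_le_left (by positivity) r1)

/-- the size -/
lemma size_bound (hρ : 1 < ρ) (hσ : 1 < σ) (hC : 0 ≤ C) (hV : Good α β ρ σ C V) {L : ℕ}
    {m n s t : ℤ} (hm : 0 ≤ m) (hn : 0 ≤ n) (hm' : 0 ≤ m + s) (hn' : 0 ≤ n + t) (hs : |s| ≤ L)
    (ht : |t| ≤ L) {γ : Matrix (Fin 3) (Fin 3) ℤ} (hγ : V (m + s) (n + t) = γ * V m n) :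
    MB (Xm (hp α β (ρ ^ m) (σ ^ n)) γ)
      ((3 : ℕ) * ((ρ * σ) ^ L * C * ((1 : ℝ)⁻¹ * ((Nat.factorial 3 : ℕ) * (max C 1) ^ 3)))) := by
  have hρ0 : 0 < ρ := by linarith
  have hσ0 : 0 < σ := by linarith
  have hρm : 0 < ρ ^ m := zpow_pos hρ0 m
  have hσn : 0 < σ ^ n := zpow_pos hσ0 n
  have hu := hV.unit hm hn
  have hR := hV.mb hρ0 hσ0 hm hn
  set y := hp α β (ρ ^ m) (σ ^ n) * zR (V m n) with hy
  have hydet : |y.det| = 1 := by
    rw [hy, det_mul, abs_mul, hp_det hρm hσn, det_zR, abs_det_of_isUnit hu, mul_one]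
  have hyu : IsUnit y.det := isUnit_iff_ne_zero.2 (by
    intro h0
    rw [h0, abs_zero] at hydet
    exact zero_ne_one hydet)
  have e1 : Xm (hp α β (ρ ^ m) (σ ^ n)) γ =
      (hp α β (ρ ^ m) (σ ^ n) * zR (V (m + s) (n + t))) * y⁻¹ := by
    have h1 : Xm (hp α β (ρ ^ m) (σ ^ n)) γ * hp α β (ρ ^ m) (σ ^ n) =
        hp α β (ρ ^ m) (σ ^ n) * zR γ := Xm_mul_self (hp_ne hρm hσn) γ
    have h2 : hp α β (ρ ^ m) (σ ^ n) * zR (V (m + s) (n + t)) =
        Xm (hp α β (ρ ^ m) (σ ^ n)) γ * y := by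
      rw [hγ, zR_mul, ← Matrix.mul_assoc, ← h1, hy]
      simp only [Matrix.mul_assoc]
    rw [h2, Matrix.mul_assoc, Matrix.mul_nonsing_inv _ hyu, Matrix.mul_one]
  rw [e1]
  refine MB.mul (T := (ρ * σ) ^ L * C) ?_ (inv_MB hR hydet)
  intro i k
  have e2 : hp α β (ρ ^ m) (σ ^ n) = diagonal (av (ρ ^ (-s)) (σ ^ (-t))) *
      hp α β (ρ ^ (m + s)) (σ ^ (n + t)) := by
    rw [← hp_add hρ0 hσ0, add_neg_cancel_right, add_neg_cancel_right]
  rw [e2, Matrix.mul_assoc, diagonal_mul, abs_mul,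
    abs_of_pos (av_pos (zpow_pos hρ0 _) (zpow_pos hσ0 _) i)]
  refine mul_le_mul (av_le hρ hσ (by rwa [abs_neg]) (by rwa [abs_neg]) i)
    (hV.mb hρ0 hσ0 hm' hn' i k) (abs_nonneg _) (by positivity)

/-- **A local period gives a near-diagonal integral matrix.** -/
theorem near_of_period (hμ : 1 < μ) (hρ : μ ≤ ρ) (hσ : μ ≤ σ) (hC : 0 ≤ C)
    (hV : Good α β ρ σ C V) {L κ : ℕ} {m n s t : ℤ} (hm : ((κ * L : ℕ) : ℤ) + L ≤ m)
    (hn : ((κ * L : ℕ) : ℤ) + L ≤ n) (hs : |s| ≤ L) (ht : |t| ≤ L) (hst : s ≠ 0 ∨ t ≠ 0)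
    (hκ : 3 * (C * ((1 : ℝ)⁻¹ * ((Nat.factorial 3 : ℕ) * (max C 1) ^ 3))) < μ ^ κ)
    (hper : ∀ x y : ℤ, |x| ≤ (κ * L : ℕ) → |y| ≤ (κ * L : ℕ) →
      code V (m + x) (n + y) = code V (m + x + s) (n + y + t)) {T : ℝ}
    (hT : (3 : ℕ) * ((ρ * σ) ^ L * C * ((1 : ℝ)⁻¹ * ((Nat.factorial 3 : ℕ) * (max C 1) ^ 3))) ≤ T) :
    ∃ γ : Matrix (Fin 3) (Fin 3) ℤ, (∀ c : ℤ, γ ≠ c • (1 : Matrix (Fin 3) (Fin 3) ℤ)) ∧
      ND T (T / μ ^ (κ * L)) (Xm (hp α β (ρ ^ m) (σ ^ n)) γ) := by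
  have hμ0 : 0 < μ := by linarith
  have hρ1 : 1 < ρ := by linarith
  have hσ1 : 1 < σ := by linarith
  have hρ0 : 0 < ρ := by linarith
  have hσ0 : 0 < σ := by linarith
  have hs' := abs_le.1 hs
  have ht' := abs_le.1 ht
  set K : ℕ := κ * L with hK
  have hK0 : (0 : ℤ) ≤ K := Int.natCast_nonneg _
  have hgm : (LLm α β).det ≠ 0 := by
    intro h0
    have := LLm_det α β
    rw [h0, abs_zero] at this
    exact zero_ne_one this
  have hall := period_matrix hV hK0 (by omega) (by omega) (by omega) (by omega) hper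
  set γ : Matrix (Fin 3) (Fin 3) ℤ := V (m + s) (n + t) * (V m n)⁻¹ with hγ
  have hsz : ∀ x y : ℤ, |x| ≤ K → |y| ≤ K → MB (Xm (hp α β (ρ ^ (m + x)) (σ ^ (n + y))) γ) T := by
    intro x y hx hy i j
    have hx' := abs_le.1 hx
    have hy' := abs_le.1 hy
    exact (size_bound hρ1 hσ1 hC hV (m := m + x) (n := n + y) (by omega) (by omega) (by omega)
      (by omega) hs ht (hall x y hx hy) i j).trans hT
  have hsz0 : MB (Xm (hp α β (ρ ^ m) (σ ^ n)) γ) T := by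
    have := hsz 0 0 (by simp) (by simp)
    rwa [add_zero, add_zero] at this
  refine ⟨γ, fun c hc => ?_, fun i j => ?_⟩
  · -- not a scalar
    have hiter : ∀ j : ℕ, j ≤ κ → V (m + j * s) (n + j * t) = c ^ j • V m n := by
      intro j
      induction j with
      | zero => intro _; simp
      | succ j ih =>
        intro hj
        have h1 := ih (by omega)
        have b1 : |(j : ℤ) * s| ≤ K := by
          rw [abs_mul, Nat.abs_cast]
          calc (j : ℤ) * |s| ≤ (κ : ℤ) * L :=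
                mul_le_mul (by exact_mod_cast (by omega : j ≤ κ)) hs (abs_nonneg _)
                  (Int.natCast_nonneg _)
            _ = K := by rw [hK]; push_cast; ring
        have b2 : |(j : ℤ) * t| ≤ K := by
          rw [abs_mul, Nat.abs_cast]
          calc (j : ℤ) * |t| ≤ (κ : ℤ) * L :=
                mul_le_mul (by exact_mod_cast (by omega : j ≤ κ)) ht (abs_nonneg _)
                  (Int.natCast_nonneg _)
            _ = K := by rw [hK]; push_cast; ring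
        have h2 := hall _ _ b1 b2
        have e1 : m + (j : ℤ) * s + s = m + ((j + 1 : ℕ) : ℤ) * s := by push_cast; ring
        have e2 : n + (j : ℤ) * t + t = n + ((j + 1 : ℕ) : ℤ) * t := by push_cast; ring
        rw [e1, e2, hc, h1] at h2
        rw [h2, Matrix.smul_mul, Matrix.one_mul, smul_smul, pow_succ']
    have bκ1 : |(κ : ℤ) * s| ≤ K := by
      rw [abs_mul, Nat.abs_cast, hK]
      push_cast
      exact mul_le_mul_of_nonneg_left hs (Int.natCast_nonneg _)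
    have bκ2 : |(κ : ℤ) * t| ≤ K := by
      rw [abs_mul, Nat.abs_cast, hK]
      push_cast
      exact mul_le_mul_of_nonneg_left ht (Int.natCast_nonneg _)
    have bκ1' := abs_le.1 bκ1
    have bκ2' := abs_le.1 bκ2
    have hfin := hiter κ le_rfl
    have hm0 : 0 ≤ m := by omega
    have hn0 : 0 ≤ n := by omega
    have hc1 : |c ^ κ| = 1 := by
      have h1 := (hV (m + κ * s) (n + κ * t) (by omega) (by omega)).1
      rw [hfin, Matrix.det_smul, abs_mul, (hV m n hm0 hn0).1, mul_one, Fintype.card_fin, abs_pow] at h1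
      exact (pow_eq_one_iff_of_nonneg (abs_nonneg _) (by norm_num)).1 h1
    obtain ⟨i, hi⟩ : ∃ i, μ ^ κ ≤ av (ρ ^ ((κ : ℤ) * s)) (σ ^ ((κ : ℤ) * t)) i := by
      have mr : μ ^ κ ≤ ρ ^ κ := pow_le_pow_left₀ hμ0.le hρ κ
      have ms : μ ^ κ ≤ σ ^ κ := pow_le_pow_left₀ hμ0.le hσ κ
      have upr : ∀ x : ℤ, 1 ≤ x → μ ^ κ ≤ ρ ^ ((κ : ℤ) * x) := fun x hx => by
        refine mr.trans ?_
        rw [← zpow_natCast]
        refine zpow_le_zpow_right₀ hρ1.le ?_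
        have : (0 : ℤ) ≤ κ := Int.natCast_nonneg _
        nlinarith
      have ups : ∀ x : ℤ, 1 ≤ x → μ ^ κ ≤ σ ^ ((κ : ℤ) * x) := fun x hx => by
        refine ms.trans ?_
        rw [← zpow_natCast]
        refine zpow_le_zpow_right₀ hσ1.le ?_
        have : (0 : ℤ) ≤ κ := Int.natCast_nonneg _
        nlinarith
      have nnr : ∀ x : ℤ, 0 ≤ x → 1 ≤ ρ ^ ((κ : ℤ) * x) := fun x hx =>
        one_le_zpow₀ hρ1.le (mul_nonneg (Int.natCast_nonneg _) hx)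
      have nns : ∀ x : ℤ, 0 ≤ x → 1 ≤ σ ^ ((κ : ℤ) * x) := fun x hx =>
        one_le_zpow₀ hσ1.le (mul_nonneg (Int.natCast_nonneg _) hx)
      by_cases h1 : 1 ≤ s
      · exact ⟨1, upr s h1⟩
      by_cases h2 : 1 ≤ t
      · exact ⟨2, ups t h2⟩
      refine ⟨0, ?_⟩
      show μ ^ κ ≤ (ρ ^ ((κ : ℤ) * s) * σ ^ ((κ : ℤ) * t))⁻¹
      rw [mul_inv, ← _root_.zpow_neg, ← _root_.zpow_neg, ← mul_neg, ← mul_neg]
      by_cases h3 : s = 0
      · have h4 : 1 ≤ -t := by omega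
        calc μ ^ κ = 1 * μ ^ κ := (one_mul _).symm
          _ ≤ _ := mul_le_mul (nnr (-s) (by omega)) (ups (-t) h4) (by positivity)
            (zpow_pos hρ0 _).le
      · calc μ ^ κ = μ ^ κ * 1 := (mul_one _).symm
          _ ≤ _ := mul_le_mul (upr (-s) (by omega)) (nns (-t) (by omega)) zero_le_one
            (zpow_pos hρ0 _).le
    have hρm : 0 < ρ ^ m := zpow_pos hρ0 m
    have hσn : 0 < σ ^ n := zpow_pos hσ0 n
    have hR := hV.mb hρ0 hσ0 hm0 hn0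
    set y := hp α β (ρ ^ m) (σ ^ n) * zR (V m n) with hy
    have hydet : |y.det| = 1 := by
      rw [hy, det_mul, abs_mul, hp_det hρm hσn, det_zR, abs_det_of_isUnit (hV.unit hm0 hn0), mul_one]
    have hyu : IsUnit y.det := isUnit_iff_ne_zero.2 (by
      intro h0
      rw [h0, abs_zero] at hydet
      exact zero_ne_one hydet)
    have hinv := inv_MB hR hydet
    have hrow : ∀ k, |y i k| * μ ^ κ ≤ C := by
      intro k
      have h1 := hV.mb hρ0 hσ0 (m := m + κ * s) (n := n + κ * t) (by omega) (by omega) i k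
      rw [hp_add hρ0 hσ0, Matrix.mul_assoc, diagonal_mul, hfin] at h1
      have h2 : zR (c ^ κ • V m n) = ((c ^ κ : ℤ) : ℝ) • zR (V m n) := by
        ext a b
        unfold zR
        rw [Matrix.map_apply, Matrix.smul_apply, Matrix.smul_apply, Matrix.map_apply, smul_eq_mul,
          smul_eq_mul, Int.cast_mul]
      rw [h2, Matrix.mul_smul, Matrix.smul_apply, smul_eq_mul, abs_mul, abs_mul] at h1
      have h3 : |((c ^ κ : ℤ) : ℝ)| = 1 := by
        have : ((|c ^ κ| : ℤ) : ℝ) = 1 := by rw [hc1]; norm_num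
        rwa [Int.cast_abs] at this
      rw [h3, one_mul, abs_of_pos (av_pos (zpow_pos hρ0 _) (zpow_pos hσ0 _) i)] at h1
      rw [mul_comm]
      exact (mul_le_mul_of_nonneg_right hi (abs_nonneg _)).trans h1
    have hone : (1 : ℝ) = ∑ k, y i k * y⁻¹ k i := by
      have := congrFun (congrFun (Matrix.mul_nonsing_inv _ hyu) i) i
      rw [Matrix.one_apply_eq, Matrix.mul_apply] at this
      exact this.symm
    set R' : ℝ := (1 : ℝ)⁻¹ * ((Nat.factorial 3 : ℕ) * (max C 1) ^ 3) with hR'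
    have hle : μ ^ κ ≤ 3 * (C * R') := by
      calc μ ^ κ = |∑ k, y i k * y⁻¹ k i| * μ ^ κ := by rw [← hone, abs_one, one_mul]
        _ ≤ (∑ k, |y i k * y⁻¹ k i|) * μ ^ κ :=
            mul_le_mul_of_nonneg_right (Finset.abs_sum_le_sum_abs _ _) (by positivity)
        _ = ∑ k, (|y i k| * μ ^ κ) * |y⁻¹ k i| := by
            rw [Finset.sum_mul]
            refine Finset.sum_congr rfl fun k _ => ?_
            rw [abs_mul]
            ring
        _ ≤ ∑ _k : Fin 3, C * R' := Finset.sum_le_sum fun k _ =>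
            mul_le_mul (hrow k) (hinv k i) (abs_nonneg _) hC
        _ = 3 * (C * R') := by
            rw [Finset.sum_const, Finset.card_univ, Fintype.card_fin, nsmul_eq_mul]
            norm_num
    linarith
  · split_ifs with hij
    · exact hsz0 i j
    · obtain ⟨x, y, hx, hy, hxy⟩ := corner hμ hρ hσ K i j hij
      have h1 := hsz x y hx hy i j
      have hρm : 0 < ρ ^ m := zpow_pos hρ0 m
      have hσn : 0 < σ ^ n := zpow_pos hσ0 n
      have p0 := av_pos hρm hσn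
      have p1 := av_pos (zpow_pos hρ0 x) (zpow_pos hσ0 y)
      have e1 : Xm (hp α β (ρ ^ (m + x)) (σ ^ (n + y))) γ i j * av (ρ ^ x) (σ ^ y) j =
          Xm (hp α β (ρ ^ m) (σ ^ n)) γ i j * av (ρ ^ x) (σ ^ y) i := by
        rw [hp_add hρ0 hσ0, Xm_diag (hp_ne hρm hσn) p1]
        have := (p1 j).ne'
        field_simp
      have e2 : |Xm (hp α β (ρ ^ (m + x)) (σ ^ (n + y))) γ i j| * av (ρ ^ x) (σ ^ y) j =
          |Xm (hp α β (ρ ^ m) (σ ^ n)) γ i j| * av (ρ ^ x) (σ ^ y) i := by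
        calc |Xm (hp α β (ρ ^ (m + x)) (σ ^ (n + y))) γ i j| * av (ρ ^ x) (σ ^ y) j
            = |Xm (hp α β (ρ ^ (m + x)) (σ ^ (n + y))) γ i j * av (ρ ^ x) (σ ^ y) j| := by
              rw [abs_mul, abs_of_pos (p1 j)]
          _ = |Xm (hp α β (ρ ^ m) (σ ^ n)) γ i j * av (ρ ^ x) (σ ^ y) i| := by rw [e1]
          _ = _ := by rw [abs_mul, abs_of_pos (p1 i)]
      have hKμ : 0 < μ ^ K := by positivity
      rw [le_div_iff₀ hKμ]
      refine le_of_mul_le_mul_right ?_ (p1 j)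
      calc |Xm (hp α β (ρ ^ m) (σ ^ n)) γ i j| * μ ^ K * av (ρ ^ x) (σ ^ y) j
          = |Xm (hp α β (ρ ^ m) (σ ^ n)) γ i j| * (μ ^ K * av (ρ ^ x) (σ ^ y) j) := by ring
        _ ≤ |Xm (hp α β (ρ ^ m) (σ ^ n)) γ i j| * av (ρ ^ x) (σ ^ y) i :=
            mul_le_mul_of_nonneg_left hxy (abs_nonneg _)
        _ = |Xm (hp α β (ρ ^ (m + x)) (σ ^ (n + y))) γ i j| * av (ρ ^ x) (σ ^ y) j := e2.symm
        _ ≤ T * av (ρ ^ x) (σ ^ y) j := mul_le_mul_of_nonneg_right h1 (p1 j).le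

end Pool.Agent.V7H37.LI
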