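import Pool.Agent.V7H37.RT.Core
import Pool.Agent.H715R2.Periodic

/-! # A row which is an eigenvector of an irreducible integral matrix is algebraic -/

set_option autoImplicit false

open Filter Topology Matrix Polynomial

namespace Pool.Agent.V7H37.LI

open H715R2 Pool.Agent.N759.NV Pool.Agent.N759.WP Pool.Agent.V7H37.RT

variable {d : ℕ}

/-- cyclic vectors -/
lemma cyclic (A : Matrix (Fin d) (Fin d) ℚ) (hA : Irreducible A.charpoly) {x : Fin d → ℚ}
    (hx0 : x ≠ 0) (y : Fin d → ℚ) : ∃ g : Fin d → ℚ, y = ∑ i : Fin d, g i • (A ^ (i : ℕ) *ᵥ x) := by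
  classical
  have hd : 0 < d := by
    have := hA.natDegree_pos
    rwa [natDegree_charpoly'] at this
  set v : Fin d → (Fin d → ℚ) := fun i => A ^ (i : ℕ) *ᵥ x with hv
  have hsum : ∀ g : Fin d → ℚ, (∑ i : Fin d, g i • A ^ (i : ℕ)) *ᵥ x = ∑ i, g i • v i := by
    intro g
    rw [Matrix.sum_mulVec]
    exact Finset.sum_congr rfl fun i _ => by rw [smul_mulVec]
  have hli : LinearIndependent ℚ v := by
    rw [Fintype.linearIndependent_iff]
    intro g hg
    obtain ⟨q, hq1, hq2, hq3⟩ := exists_poly_of_coeffs A g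
    by_cases hq0 : q = 0
    · intro i
      rw [← hq1 i, hq0, coeff_zero]
    exfalso
    obtain ⟨u, hu⟩ := inv_aeval A hA hq0 (hq2 hq0)
    apply hx0
    have h1 : aeval A q *ᵥ x = 0 := by rw [hq3, hsum, hg]
    calc x = (1 : Matrix (Fin d) (Fin d) ℚ) *ᵥ x := (one_mulVec x).symm
      _ = (aeval A u * aeval A q) *ᵥ x := by rw [hu]
      _ = 0 := by rw [← mulVec_mulVec, h1, mulVec_zero]
  have hcard : Fintype.card (Fin d) = Module.finrank ℚ (Fin d → ℚ) := by
    rw [Module.finrank_fintype_fun_eq_card]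
  have hne : Nonempty (Fin d) := ⟨⟨0, hd⟩⟩
  set b := basisOfLinearIndependentOfCardEqFinrank hli hcard with hb
  refine ⟨fun i => b.repr y i, ?_⟩
  have := b.sum_repr y
  conv_lhs => rw [← this]
  refine Finset.sum_congr rfl fun i _ => ?_
  rw [hb, coe_basisOfLinearIndependentOfCardEqFinrank]

/-- an eigenvector with a zero coordinate is zero -/
lemma row_zero {γ : Matrix (Fin d) (Fin d) ℤ} (hγ : Irr γ) {v : Fin d → ℝ} {c : ℝ}
    (hv : v ᵥ* zR γ = c • v) {j : Fin d} (hj : v j = 0) : v = 0 := by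
  classical
  have hpow : ∀ n : ℕ, v ᵥ* zR (γ ^ n) = c ^ n • v := by
    intro n
    induction n with
    | zero => rw [pow_zero, pow_zero, zR_one, vecMul_one, one_smul]
    | succ n ih =>
      rw [pow_succ, zR_mul, ← vecMul_vecMul, ih, Matrix.smul_vecMul, hv, smul_smul, pow_succ]
  funext k
  obtain ⟨g, hg⟩ := cyclic (mQ γ) hγ (x := Pi.single j 1) (by
    intro h0
    have := congrFun h0 j
    rw [Pi.single_eq_same] at this
    exact one_ne_zero this) (Pi.single k 1)
  have hcol : ∀ l, ((Pi.single k 1 : Fin d → ℚ) l : ℝ) = ∑ i : Fin d, (g i : ℝ) * zR (γ ^ (i : ℕ)) l j := by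
    intro l
    have h1 := congrFun hg l
    rw [h1, Finset.sum_apply]
    push_cast
    refine Finset.sum_congr rfl fun i _ => ?_
    rw [Pi.smul_apply, smul_eq_mul]
    push_cast
    congr 1
    rw [← mQ_pow, mulVec_single_one]
    simp [mQ, zR]
  have h2 : v k = ∑ l, v l * ((Pi.single k 1 : Fin d → ℚ) l : ℝ) := by
    rw [Finset.sum_eq_single k]
    · rw [Pi.single_eq_same]; simp
    · intro l _ hl
      rw [Pi.single_eq_of_ne hl]; simp
    · intro h; exact absurd (Finset.mem_univ k) h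
  rw [h2]
  simp only [hcol, Finset.mul_sum]
  rw [Finset.sum_comm]
  refine Finset.sum_eq_zero fun i _ => ?_
  have h3 := congrFun (hpow i) j
  rw [Pi.smul_apply, hj, smul_zero] at h3
  have h4 : ∑ l, v l * ((g i : ℝ) * zR (γ ^ (i : ℕ)) l j) =
      (g i : ℝ) * ∑ l, v l * zR (γ ^ (i : ℕ)) l j := by
    rw [Finset.mul_sum]
    exact Finset.sum_congr rfl fun l _ => by ring
  rw [h4]
  have h5 : ∑ l, v l * zR (γ ^ (i : ℕ)) l j = 0 := h3
  rw [h5, mul_zero]

open IntermediateField in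
/-- **The row is algebraic.** -/
theorem alg_row {h : Matrix (Fin d) (Fin d) ℝ} (hh : h.det ≠ 0) {γ : Matrix (Fin d) (Fin d) ℤ}
    (hγ : Irr γ) {i : Fin d} (hX : ∀ j, j ≠ i → Xm h γ i j = 0) :
    ∃ (K : IntermediateField ℚ ℝ), FiniteDimensional ℚ K ∧ Module.finrank ℚ K ≤ d ∧
      ∃ s : ℝ, s ≠ 0 ∧ ∀ j, s * h i j ∈ K := by
  classical
  set c : ℝ := Xm h γ i i with hc
  -- the row is an eigenvector
  have hrow : h i ᵥ* zR γ = c • h i := by
    funext j
    have h1 := congrFun (congrFun (Xm_mul_self hh γ) i) j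
    rw [Matrix.mul_apply, Matrix.mul_apply, Finset.sum_eq_single i] at h1
    · rw [Pi.smul_apply, smul_eq_mul, hc, h1]
      rfl
    · intro k _ hk
      rw [hX k hk, zero_mul]
    · intro h0; exact absurd (Finset.mem_univ i) h0
  have hrow0 : h i ≠ 0 := by
    intro h0
    exact hh (Matrix.det_eq_zero_of_row_eq_zero i fun j => congrFun h0 j)
  have hdetR : (Matrix.scalar (Fin d) c - zR γ).det = 0 := by
    rw [← Matrix.exists_vecMul_eq_zero_iff]
    refine ⟨h i, hrow0, ?_⟩
    rw [Matrix.vecMul_sub, hrow]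
    funext j
    simp [Matrix.scalar_apply, mul_comm]
  set P : Polynomial ℚ := (γ.map (Int.cast : ℤ → ℚ)).charpoly with hP
  have hPm : P.Monic := Matrix.charpoly_monic _
  have hPd : P.natDegree = d := by
    rw [hP, Matrix.charpoly_natDegree_eq_dim, Fintype.card_fin]
  have hPc : Polynomial.aeval c P = 0 := by
    rw [Polynomial.aeval_def, ← Polynomial.eval_map, hP, ← Matrix.charpoly_map,
      Matrix.eval_charpoly]
    rw [← hdetR]
    congr 2
  have hint : IsIntegral ℚ c := ⟨P, hPm, hPc⟩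
  have hfin : FiniteDimensional ℚ ℚ⟮c⟯ := adjoin.finiteDimensional hint
  refine ⟨ℚ⟮c⟯, hfin, ?_, ?_⟩
  · rw [adjoin.finrank hint, ← hPd]
    exact Polynomial.natDegree_le_of_dvd (minpoly.dvd ℚ c hPc) hPm.ne_zero
  set K := ℚ⟮c⟯ with hK
  set cK : K := ⟨c, mem_adjoin_simple_self ℚ c⟩ with hcK
  have hdetK : (Matrix.scalar (Fin d) cK - (γ.map (Int.cast : ℤ → K))).det = 0 := by
    apply (algebraMap K ℝ).injective
    rw [map_zero, RingHom.map_det, ← hdetR]
    congr 1
    ext p q
    simp only [RingHom.mapMatrix_apply, Matrix.map_apply, Matrix.sub_apply, map_sub, zR,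
      Matrix.scalar_apply, Matrix.diagonal_apply]
    congr 1
    split_ifs
    · rfl
    · simp
  obtain ⟨w, hw0, hw⟩ := Matrix.exists_vecMul_eq_zero_iff.2 hdetK
  set wR : Fin d → ℝ := fun j => (w j : ℝ) with hwR
  have hwR0 : wR ≠ 0 := by
    intro h0
    apply hw0
    funext j
    exact Subtype.ext (congrFun h0 j)
  have hwe : wR ᵥ* zR γ = c • wR := by
    funext j
    have h1 := congrArg (fun z : K => (z : ℝ)) (congrFun hw j)
    rw [Matrix.vecMul_sub] at h1
    simp only [Pi.sub_apply, Matrix.scalar_apply, Matrix.vecMul_diagonal, Pi.zero_apply] at h1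
    have h2 : (((w ᵥ* (γ.map (Int.cast : ℤ → K))) j : K) : ℝ) = (wR ᵥ* zR γ) j := by
      simp only [Matrix.vecMul, dotProduct, Matrix.map_apply, zR]
      push_cast
      rfl
    have h3 : ((w j * cK - (w ᵥ* (γ.map (Int.cast : ℤ → K))) j : K) : ℝ)
        = wR j * c - (wR ᵥ* zR γ) j := by
      rw [← h2]; rfl
    rw [h3] at h1
    have h4 : ((0 : K) : ℝ) = 0 := rfl
    rw [h4] at h1
    rw [Pi.smul_apply, smul_eq_mul]
    linarith
  -- the two eigenvectors are proportional
  obtain ⟨k, hk⟩ : ∃ k, h i k ≠ 0 := by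
    by_contra hcon
    push Not at hcon
    exact hrow0 (funext hcon)
  have hcomb : (wR k • h i - h i k • wR) = 0 := by
    refine row_zero (j := k) (c := c) hγ ?_ ?_
    · rw [Matrix.sub_vecMul, Matrix.smul_vecMul, Matrix.smul_vecMul, hrow, hwe, smul_sub,
        smul_comm c (wR k), smul_comm c (h i k)]
    · rw [Pi.sub_apply, Pi.smul_apply, Pi.smul_apply, smul_eq_mul, smul_eq_mul]
      ring
  have hwk : wR k ≠ 0 := by
    intro h0
    rw [h0, zero_smul, zero_sub, neg_eq_zero] at hcomb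
    rcases smul_eq_zero.1 hcomb with h1 | h1
    · exact hk h1
    · exact hwR0 h1
  refine ⟨wR k / h i k, div_ne_zero hwk hk, fun j => ?_⟩
  have h5 := congrFun hcomb j
  rw [Pi.sub_apply, Pi.smul_apply, Pi.smul_apply, smul_eq_mul, smul_eq_mul, Pi.zero_apply] at h5
  have h6 : wR k / h i k * h i j = wR j := by
    field_simp
    linarith
  rw [h6]
  exact (w j).2

end Pool.Agent.V7H37.LI
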